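import Pool.Agent.Work.MP_a98e4e_ag.Cx.Cone

/-!
# Minimal complexes, descent of closedness, the symmetry of the tensor product
-/

set_option autoImplicit false
set_option linter.unusedSectionVars false

open Matrix Kronecker

namespace LicciCx

variable {R : Type*} [CommRing R]

namespace Cx

variable {S : Type*} [CommRing S] {J J' J'' J₁ J₁' : Type*} [Fintype J] [Fintype J'] [Fintype J'']
  [Fintype J₁] [Fintype J₁'] [DecidableEq J] [DecidableEq J'] [DecidableEq J''] [DecidableEq J₁]
  [DecidableEq J₁'] {n m : ℤ} {K : Cx R J} {L : Cx R J'} (φ : R →+* S)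

/-- a closed map over a subring is closed -/
theorem Cl.of_map (hφ : Function.Injective φ) {f : Matrix J' J R}
    (hf : Cl (K.map φ) (L.map φ) n (f.map φ)) : Cl K L n f := by
  have hinj : Function.Injective (fun f : Matrix J' J R => f.map φ) := by
    intro f g h
    ext i j
    exact hφ (congrFun (congrFun h i) j)
  refine ⟨fun i j h => hφ ?_, hinj ?_⟩
  · rw [map_zero]; exact hf.hmg i j h
  · have := hf.comm
    show (L.d * f).map φ = (((sg n : ℤ) : R) • (f * K.d)).map φ
    rw [sg_smul_map, Matrix.map_mul, Matrix.map_mul]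
    exact this

/-! ## complexes whose differential has entries in an ideal -/

/-- all entries of the differential lie in `I` -/
def Min (I : Ideal R) (K : Cx R J) : Prop := ∀ i j, K.d i j ∈ I

theorem mul_mem_ideal {A B C : Type*} [Fintype B] {I : Ideal R} {f : Matrix A B R}
    {g : Matrix B C R} (hf : ∀ i j, f i j ∈ I) (i : A) (j : C) : (f * g) i j ∈ I := by
  rw [Matrix.mul_apply]
  exact I.sum_mem fun k _ => I.mul_mem_right _ (hf i k)

theorem mul_mem_ideal' {A B C : Type*} [Fintype B] {I : Ideal R} {f : Matrix A B R}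
    {g : Matrix B C R} (hg : ∀ i j, g i j ∈ I) (i : A) (j : C) : (f * g) i j ∈ I := by
  rw [Matrix.mul_apply]
  exact I.sum_mem fun k _ => I.mul_mem_left _ (hg k j)

/-- boundaries between minimal complexes vanish modulo the ideal -/
theorem Bd.mem_ideal {I : Ideal R} (hK : Min I K) (hL : Min I L) {f : Matrix J' J R}
    (hf : Bd K L n f) (i : J') (j : J) : f i j ∈ I := by
  obtain ⟨s, hs, rfl⟩ := hf
  rw [Matrix.add_apply, Matrix.smul_apply, smul_eq_mul]
  exact I.add_mem (mul_mem_ideal hL i j) (I.mul_mem_left _ (mul_mem_ideal' hK i j))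

theorem Min.tensor {I : Ideal R} (hK : Min I K) (hL : Min I L) : Min I (K.tensor L) := by
  rintro ⟨i, i'⟩ ⟨j, j'⟩
  rw [tensor_d, Matrix.add_apply, Matrix.kroneckerMap_apply, Matrix.kroneckerMap_apply]
  exact I.add_mem (I.mul_mem_right _ (hK i j)) (I.mul_mem_left _ (hL i' j'))

theorem Min.dual {I : Ideal R} (hK : Min I K) : Min I K.dual := by
  intro i j
  rw [dual_d, Matrix.neg_apply, Matrix.transpose_apply]
  exact I.neg_mem (mul_mem_ideal' hK j i)

theorem Min.hom {I : Ideal R} (hK : Min I K) (hL : Min I L) : Min I (Hom K L) :=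
  hL.tensor hK.dual

theorem Min.map {I : Ideal R} (hK : Min I K) : Min (I.map φ) (K.map φ) :=
  fun i j => Ideal.mem_map_of_mem φ (hK i j)

/-- the differential of a minimal complex vanishes on the closed fibre -/
theorem Min.map_d_eq_zero {I : Ideal R} (hK : Min I K) (hI : I ≤ RingHom.ker φ) :
    K.d.map φ = 0 := by
  ext i j
  exact hI (hK i j)

/-! ## the symmetry of the tensor product -/

/-- the swap `K ⊗ L → L ⊗ K` with the sign `(-1) ^ (deg k * deg l)` -/
def swap (K : Cx R J) (L : Cx R J') : Matrix (J' × J) (J × J') R :=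
  Matrix.of fun y x => if y = (x.2, x.1) then ((sg (K.deg x.1 * L.deg x.2) : ℤ) : R) else 0

theorem swap_apply (x : J × J') (y : J' × J) : swap K L y x =
    if y = (x.2, x.1) then ((sg (K.deg x.1 * L.deg x.2) : ℤ) : R) else 0 := rfl

theorem mul_swap {A : Type*} (f : Matrix A (J' × J) R) (a : A) (x : J × J') :
    (f * swap K L) a x = f a (x.2, x.1) * ((sg (K.deg x.1 * L.deg x.2) : ℤ) : R) := by
  rw [Matrix.mul_apply, Finset.sum_eq_single (x.2, x.1)]
  · rw [swap_apply, if_pos rfl]
  · intro b _ hb; rw [swap_apply, if_neg hb, mul_zero]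
  · intro h; exact absurd (Finset.mem_univ _) h

theorem swap_mul {A : Type*} (f : Matrix (J × J') A R) (y : J' × J) (a : A) :
    (swap K L * f) y a = ((sg (K.deg y.2 * L.deg y.1) : ℤ) : R) * f (y.2, y.1) a := by
  rw [Matrix.mul_apply, Finset.sum_eq_single (y.2, y.1)]
  · rw [swap_apply, if_pos rfl]
  · rintro ⟨b1, b2⟩ _ hb
    rw [swap_apply, if_neg, zero_mul]
    rintro rfl
    exact hb rfl
  · intro h; exact absurd (Finset.mem_univ _) h

theorem swap_mulVec (v : J × J' → R) (y : J' × J) :
    (swap K L *ᵥ v) y = ((sg (K.deg y.2 * L.deg y.1) : ℤ) : R) * v (y.2, y.1) := by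
  rw [Matrix.mulVec, dotProduct, Finset.sum_eq_single (y.2, y.1)]
  · rw [swap_apply, if_pos rfl]
  · rintro ⟨b1, b2⟩ _ hb
    rw [swap_apply, if_neg, zero_mul]
    rintro rfl
    exact hb rfl
  · intro h; exact absurd (Finset.mem_univ _) h

theorem swap_swap : swap L K * swap K L = 1 := by
  ext x y
  rw [mul_swap, swap_apply]
  by_cases h : x = y
  · subst h
    rw [if_pos rfl, Matrix.one_apply_eq, mul_comm (L.deg x.2), ← Int.cast_mul, sg_mul_self, Int.cast_one]
  · rw [if_neg, zero_mul, Matrix.one_apply_ne h]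
    intro h1
    exact h h1

theorem swap_hmg : IsHmg (K.tensor L) (L.tensor K) 0 (swap K L) := by
  intro y x h
  rw [swap_apply, if_neg]
  rintro rfl
  apply h
  rw [tensor_deg, tensor_deg]
  ring

theorem sg_sq' (n : ℤ) : ((sg n : ℤ) : R) * ((sg n : ℤ) : R) = 1 := by
  rw [← Int.cast_mul, sg_mul_self, Int.cast_one]

theorem swap_cl : Cl (K.tensor L) (L.tensor K) 0 (swap K L) := by
  refine Cl.mk0 swap_hmg ?_
  ext ⟨y1, y2⟩ ⟨x1, x2⟩
  rw [mul_swap, swap_mul, tensor_d, tensor_d, Matrix.add_apply, Matrix.add_apply]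
  simp only [Matrix.kroneckerMap_apply, ep, Matrix.one_apply, Matrix.diagonal_apply]
  by_cases h1 : y1 = x2 <;> by_cases h2 : y2 = x1
  · subst h1 h2
    simp only [if_true, mul_one]
    have hK : K.d y2 y2 = 0 := K.hmg y2 y2 (by omega)
    have hL : L.d y1 y1 = 0 := L.hmg y1 y1 (by omega)
    rw [hK, hL]; simp
  · subst h1
    simp only [if_true, h2, if_false, mul_zero, zero_mul, zero_add, add_zero, mul_one]
    by_cases h3 : K.deg y2 = K.deg x1 + 1
    · rw [h3, add_mul, one_mul, sg_add]
      push_cast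
      ring
    · rw [K.hmg y2 x1 h3]; simp
  · subst h2
    simp only [if_true, h1, if_false, mul_zero, zero_mul, add_zero, mul_one, zero_add]
    by_cases h3 : L.deg y1 = L.deg x2 + 1
    · rw [h3, mul_add, mul_one, sg_add]
      push_cast
      rw [mul_assoc, ← mul_assoc ((sg (K.deg y2) : ℤ) : R) ((sg (K.deg y2) : ℤ) : R), sg_sq']
      ring
    · rw [L.hmg y1 x2 h3]; simp
  · simp only [h1, h2, if_false, mul_zero, zero_mul, add_zero]

end Cx

end LicciCx
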