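import Pool.Agent.Work.MP_a98e4e_ag.Cx.UE

/-!
# Depth for Hom complexes

`K`, `L` contractible outside degree `0` up to powers of the members of a weakly regular sequence
`a : Fin l → R`, and `deg L - deg K ≥ -b`.
-/

set_option autoImplicit false
set_option linter.unusedSectionVars false

open Matrix Kronecker RingTheory.Sequence

namespace LicciCx

variable {R : Type*} [CommRing R]

namespace Cx

variable {J J' : Type*} [Fintype J] [Fintype J'] [DecidableEq J] [DecidableEq J']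
  {K : Cx R J} {L : Cx R J'} {n : ℤ}

theorem vh_iff_supp {K : Cx R J} {v : J → R} : Vh K n v ↔ Pool.Agent.Licci.Supp K.deg n v := by
  constructor
  · intro h j hj
    by_contra h0
    exact hj (h j h0)
  · intro h j hj
    by_contra h0
    exact hj (h j h0)

theorem vh_iff_supp' {S : Type*} [CommRing S] {φ : R →+* S} {K : Cx R J} {v : J → S} :
    Vh (K.map φ) n v ↔ Pool.Agent.Licci.Supp K.deg n v := by
  constructor
  · intro h j hj
    by_contra h0
    exact hj (h j h0)
  · intro h j hj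
    by_contra h0
    exact hj (h j h0)

theorem hmg_lic (K : Cx R J) : ∀ i j, K.d i j ≠ 0 → K.deg i = K.deg j + 1 := by
  intro i j hij
  by_contra h0
  exact hij (K.hmg i j h0)

/-! ## vectors -/

/-- exactness in negative degrees -/
theorem exact_neg_vec {l : ℕ} (a : Fin l → R) (ha : IsWeaklyRegular R (List.ofFn a))
    (hK : ∀ i, UE K (a i)) (b : ℕ) (hb : ∀ j, -(b : ℤ) ≤ K.deg j) (hbl : b ≤ l) (hn : n < 0)
    (v : J → R) (hv : Vh K n v) (hdv : K.d *ᵥ v = 0) : ∃ w, Vh K (n - 1) w ∧ v = K.d *ᵥ w := by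
  classical
  by_cases hnb : n < -(b : ℤ)
  · refine ⟨0, fun _ _ => rfl, ?_⟩
    rw [Matrix.mulVec_zero]
    funext j
    exact hv j (by have := hb j; omega)
  have hlen : (List.ofFn a).length = l := by simp
  have hempty : Subsingleton ({j // K.deg j = ((0 : ℕ) : ℤ) - 1 - b} → R) := by
    have : IsEmpty {j // K.deg j = ((0 : ℕ) : ℤ) - 1 - b} := by
      constructor
      rintro ⟨j, hj⟩
      have := hb j
      push_cast at hj
      omega
    infer_instance
  have hst : ∀ i : ℕ, (((i + 1 : ℕ) : ℤ) - 1 - b) = ((i : ℤ) - 1 - b) + 1 := by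
    intro i; push_cast; ring
  have hreg : IsWeaklyRegular R ((List.ofFn a).take b) := by
    have h1 := ha
    rw [← List.take_append_drop b (List.ofFn a), isWeaklyRegular_append_iff] at h1
    exact h1.1
  have hl : ((List.ofFn a).take b).length = b := by
    rw [List.length_take, hlen, min_eq_left hbl]
  have hd := hmg_lic K
  have key := LicciCodimFour.acyclic ((List.ofFn a).take b)
    (fun i : ℕ => {j // K.deg j = (i : ℤ) - 1 - b} → R)
    (fun i : ℕ => Pool.Agent.Licci.dnm K.deg K.d ((i : ℤ) - 1 - b) (((i + 1 : ℕ) : ℤ) - 1 - b))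
    (fun i x => Pool.Agent.Licci.dnm_dnm hd K.sq (hst i) (hst (i + 1)) x) hempty
    (fun i => Pool.Agent.Licci.isWeaklyRegular_pi_ring hreg)
    (by
      intro r hr i hi z hz
      rw [hl] at hi
      have hr' := List.mem_of_mem_take hr
      obtain ⟨l, rfl⟩ := (List.mem_ofFn' _ _).1 hr'
      obtain ⟨m, h, hh1, hh2⟩ := (UE.iff_licci K (a l)).1 (hK l)
      refine ⟨m, Pool.Agent.Licci.resz K.deg _ (h *ᵥ Pool.Agent.Licci.extz K.deg _ z), ?_⟩
      apply Pool.Agent.Licci.extz_injective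
      rw [Pool.Agent.Licci.extz_dnm hd (hst i), Pool.Agent.Licci.extz_resz, map_smul,
        Pool.Agent.Licci.UE.apply hh2 (n := ((i + 1 : ℕ) : ℤ) - 1 - b) (by push_cast; omega)
          (Pool.Agent.Licci.supp_extz _ z),
        ← Pool.Agent.Licci.extz_dnm hd (hst (i + 1)), hz, map_zero, Matrix.mulVec_zero, add_zero]
      congr 1
      apply Pool.Agent.Licci.part_eq
      have := (Pool.Agent.Licci.supp_extz (((i + 1 : ℕ) : ℤ) - 1 - b) z).mulVec (d := h) (k := -1)
        (fun i j hij => by have := hh1 i j hij; omega)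
      have e : ((i + 1 : ℕ) : ℤ) - 1 - b + -1 = (i : ℤ) - 1 - b := by push_cast; ring
      rw [e] at this
      exact this)
  rw [hl] at key
  obtain ⟨i, hi⟩ : ∃ i : ℕ, (i : ℤ) = n + b := ⟨(n + b).toNat, by omega⟩
  have hin : (((i + 1 : ℕ) : ℤ) - 1 - b) = n := by push_cast; omega
  have hv' : Pool.Agent.Licci.part K.deg (((i + 1 : ℕ) : ℤ) - 1 - b) v = v := by
    rw [hin]; exact Pool.Agent.Licci.part_eq (vh_iff_supp.1 hv)
  obtain ⟨y, hy⟩ := key i (by omega) (Pool.Agent.Licci.resz K.deg _ v) (by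
    apply Pool.Agent.Licci.extz_injective
    rw [Pool.Agent.Licci.extz_dnm hd (hst (i + 1)), Pool.Agent.Licci.extz_resz, hv', hdv, map_zero])
  refine ⟨Pool.Agent.Licci.extz K.deg _ y, ?_, ?_⟩
  · rw [vh_iff_supp]
    intro j hj
    have := Pool.Agent.Licci.supp_extz ((i : ℤ) - 1 - b) y j hj
    omega
  · have h2 := congrArg (Pool.Agent.Licci.extz K.deg _) hy
    rw [Pool.Agent.Licci.extz_dnm hd (hst i), Pool.Agent.Licci.extz_resz, hv'] at h2
    exact h2.symm

/-- closed vectors of degree `≠ 0` are boundaries up to the scalar -/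
theorem IsCon.vec_bd {c : R} {h : Matrix J J R} (hh : IsCon K c h) (hn : n ≠ 0) {v : J → R}
    (hv : Vh K n v) (hdv : K.d *ᵥ v = 0) : c • v = K.d *ᵥ (h *ᵥ v) := by
  have h1 : (c • (1 : Matrix J J R) - (K.d * h + h * K.d)) *ᵥ v = 0 := by
    funext i
    rw [Matrix.mulVec, dotProduct]
    refine Finset.sum_eq_zero fun j _ => ?_
    by_cases h0 : K.deg j = n
    · rw [hh.sup i j (by rintro ⟨-, h2⟩; exact hn (h0.symm.trans h2)), zero_mul]
    · rw [hv j h0, mul_zero]
  rw [Matrix.sub_mulVec, Matrix.smul_mulVec, Matrix.one_mulVec, Matrix.add_mulVec,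
    sub_eq_zero] at h1
  rw [h1, ← Matrix.mulVec_mulVec, ← Matrix.mulVec_mulVec, hdv, Matrix.mulVec_zero, add_zero]

theorem Vh.hmg_mulVec {f : Matrix J' J R} {m : ℤ} (hf : IsHmg K L m f) {v : J → R}
    (hv : Vh K n v) : Vh L (n + m) (f *ᵥ v) := by
  intro i hi
  rw [Matrix.mulVec, dotProduct]
  refine Finset.sum_eq_zero fun j _ => ?_
  by_cases h0 : K.deg j = n
  · rw [hf i j (by intro h1; apply hi; rw [h1, h0]), zero_mul]
  · rw [hv j h0, mul_zero]

/-! ## Hom complexes -/

theorem Hom_bot (b : ℕ) (hb : ∀ i j, K.deg j ≤ L.deg i + b) :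
    ∀ x, -(b : ℤ) ≤ (Hom K L).deg x := by
  rintro ⟨i, j⟩
  have := hb i j
  rw [Hom_deg]
  simp only
  omega

/-- closed maps of degree `≠ 0` are boundaries up to a scalar -/
theorem Cl.smul_bd {c : R} (hKL : Con (Hom K L) c) (hn : n ≠ 0) {f : Matrix J' J R}
    (hf : Cl K L n f) : Bd K L n (c • f) := by
  obtain ⟨h, hh⟩ := hKL
  obtain ⟨h1, h2⟩ := cl_iff.1 hf
  rw [bd_iff]
  refine ⟨h *ᵥ vec f, ?_, ?_⟩
  · have := Vh.hmg_mulVec hh.hmg h1
    rw [show n + -1 = n - 1 by ring] at this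
    exact this
  · rw [← hh.vec_bd hn h1 h2]; rfl

/-- closed maps of negative degree are boundaries -/
theorem Cl.bd_of_neg {l : ℕ} (a : Fin l → R) (ha : IsWeaklyRegular R (List.ofFn a))
    (hK : ∀ i, UE K (a i)) (hL : ∀ i, UE L (a i)) (b : ℕ) (hb : ∀ i j, K.deg j ≤ L.deg i + b)
    (hbl : b ≤ l) (hn : n < 0) {f : Matrix J' J R} (hf : Cl K L n f) : Bd K L n f := by
  obtain ⟨h1, h2⟩ := cl_iff.1 hf
  obtain ⟨w, hw1, hw2⟩ := exact_neg_vec a ha (fun i => (hK i).hom (hL i)) b (Hom_bot b hb) hbl hn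
    (vec f) h1 h2
  rw [bd_iff]
  exact ⟨w, hw1, hw2.symm⟩

/-- no torsion in the homotopy classes of maps of degree `0` -/
theorem Bd.of_smul {l : ℕ} (a : Fin l → R) (ha : IsWeaklyRegular R (List.ofFn a))
    (hK : ∀ i, UE K (a i)) (hL : ∀ i, UE L (a i)) (b : ℕ) (hb : ∀ i j, K.deg j ≤ L.deg i + b)
    (hbl : b < l) {f : Matrix J' J R} {s : R} (hs : s ∈ nonZeroDivisors R)
    (hf : Bd K L 0 (s • f)) : Bd K L 0 f := by
  classical
  have hfh : IsHmg K L 0 f := by
    intro i j hij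
    have h1 := hf.hmg i j hij
    rw [Matrix.smul_apply, smul_eq_mul] at h1
    exact (mul_left_mem_nonZeroDivisors_eq_zero_iff hs).1 h1
  obtain ⟨v, hv1, hv2⟩ := bd_iff.1 hf
  obtain ⟨w, hw1, hw2⟩ := Pool.Agent.Licci.depth_torsion a ha (hmg_lic (Hom K L)) (Hom K L).sq
    (fun i => (UE.iff_licci _ _).1 ((hK i).hom (hL i))) b (Hom_bot b hb) hbl (vec f)
    (vh_iff_supp.1 (vec_hmg.2 hfh)) s hs v (by rw [hv2]; rfl)
  rw [bd_iff]
  exact ⟨w, vh_iff_supp.2 hw1, hw2.symm⟩

section frac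

variable {F : Type*} [Field F] [Algebra R F] [IsFractionRing R F] [IsDomain R]

/-- a boundary over the fraction field is a boundary up to a denominator -/
theorem Bd.exists_smul_of_map {f : Matrix J' J R}
    (hf : Bd (K.map (algebraMap R F)) (L.map (algebraMap R F)) n (f.map (algebraMap R F))) :
    ∃ s : R, s ≠ 0 ∧ Bd K L n (s • f) := by
  classical
  obtain ⟨t, ht, hft⟩ := hf
  obtain ⟨s, hs⟩ := IsLocalization.exist_integer_multiples_of_finite (nonZeroDivisors R)
    (fun x : J' × J => t x.1 x.2)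
  choose w hw using hs
  have hinj : Function.Injective (algebraMap R F) := IsFractionRing.injective R F
  let t' : Matrix J' J R := Matrix.of fun i j => w (i, j)
  have ht' : t'.map (algebraMap R F) = algebraMap R F s • t := by
    ext i j
    have := hw (i, j)
    rw [Algebra.smul_def] at this
    exact this
  refine ⟨s, nonZeroDivisors.ne_zero s.2, t', ?_, ?_⟩
  · intro i j hij
    apply hinj
    have h1 := congrFun (congrFun ht' i) j
    rw [Matrix.map_apply, Matrix.smul_apply, ht i j hij, smul_zero] at h1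
    rw [h1, map_zero]
  · have hinj' : Function.Injective (fun f : Matrix J' J R => f.map (algebraMap R F)) := by
      intro f g h
      ext i j
      exact hinj (congrFun (congrFun h i) j)
    apply hinj'
    show ((s : R) • f).map (algebraMap R F) =
      (L.d * t' + ((sg n : ℤ) : R) • (t' * K.d)).map (algebraMap R F)
    rw [map_smul', map_add', sg_smul_map, Matrix.map_mul, Matrix.map_mul, ht', hft, map_d, map_d,
      smul_add, Matrix.mul_smul, Matrix.smul_mul, smul_comm (algebraMap R F s)]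

theorem Bd.of_map {l : ℕ} (a : Fin l → R) (ha : IsWeaklyRegular R (List.ofFn a))
    (hK : ∀ i, UE K (a i)) (hL : ∀ i, UE L (a i)) (b : ℕ) (hb : ∀ i j, K.deg j ≤ L.deg i + b)
    (hbl : b < l) {f : Matrix J' J R}
    (hf : Bd (K.map (algebraMap R F)) (L.map (algebraMap R F)) 0 (f.map (algebraMap R F))) :
    Bd K L 0 f := by
  obtain ⟨s, hs, h⟩ := hf.exists_smul_of_map
  exact Bd.of_smul a ha hK hL b hb hbl (mem_nonZeroDivisors_of_ne_zero hs) h

/-- A map of degree `0` over the fraction field which is, locally on the complement of `V(a)`,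
integral up to homotopy is integral up to homotopy. -/
theorem exists_lift {l : ℕ} (a : Fin l → R) (ha : IsWeaklyRegular R (List.ofFn a))
    (hK : ∀ i, UE K (a i)) (hL : ∀ i, UE L (a i)) (b : ℕ) (hb : ∀ i j, K.deg j ≤ L.deg i + b)
    (hbl : b + 1 < l) (g : Matrix J' J F)
    (hg : IsHmg (K.map (algebraMap R F)) (L.map (algebraMap R F)) 0 g)
    (hloc : ∀ i, ∃ (N : ℕ) (t : Matrix J' J R),
      Bd (K.map (algebraMap R F)) (L.map (algebraMap R F)) 0
        (algebraMap R F (a i) ^ N • g - t.map (algebraMap R F))) :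
    ∃ t : Matrix J' J R, IsHmg K L 0 t ∧
      Bd (K.map (algebraMap R F)) (L.map (algebraMap R F)) 0 (g - t.map (algebraMap R F)) := by
  classical
  have hH : (Hom K L).map (algebraMap R F) =
      Hom (K.map (algebraMap R F)) (L.map (algebraMap R F)) := map_Hom _ K L
  obtain ⟨t, u, ht, hu, htu⟩ := Pool.Agent.Licci.depth_extend_frac a ha (hmg_lic (Hom K L))
    (Hom K L).sq (fun i => (UE.iff_licci _ _).1 ((hK i).hom (hL i))) b (Hom_bot b hb) hbl (K := F)
    (vec g) (by
      have h1 := vec_hmg.2 hg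
      rw [← hH] at h1
      exact vh_iff_supp'.1 h1) (by
      intro i
      obtain ⟨N, t, ht⟩ := hloc i
      obtain ⟨v, hv1, hv2⟩ := bd_iff.1 ht
      refine ⟨N, vec t, v, ?_⟩
      rw [← hH] at hv2
      have h3 : (((Hom K L).d).map (algebraMap R F)) *ᵥ v = ((Hom K L).map (algebraMap R F)).d *ᵥ v := rfl
      rw [h3, hv2]
      funext x
      show _ = algebraMap R F (t x.1 x.2) + (algebraMap R F (a i) ^ N • g - t.map (algebraMap R F)) x.1 x.2
      rw [Matrix.sub_apply, Matrix.map_apply, add_sub_cancel]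
      rfl)
  refine ⟨Matrix.of fun i j => t (i, j), ?_, ?_⟩
  · rw [← vec_hmg, vec_of]
    exact vh_iff_supp.2 ht
  · rw [bd_iff, ← hH]
    refine ⟨u, vh_iff_supp'.2 (by rw [zero_sub]; exact hu), ?_⟩
    have h3 : (((Hom K L).d).map (algebraMap R F)) *ᵥ u = ((Hom K L).map (algebraMap R F)).d *ᵥ u := rfl
    rw [← h3]
    have h4 := sub_eq_of_eq_add' htu
    rw [← h4]
    rfl

/-- the closed version of `exists_lift` -/
theorem exists_lift_cl {l : ℕ} (a : Fin l → R) (ha : IsWeaklyRegular R (List.ofFn a))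
    (hK : ∀ i, UE K (a i)) (hL : ∀ i, UE L (a i)) (b : ℕ) (hb : ∀ i j, K.deg j ≤ L.deg i + b)
    (hbl : b + 1 < l) (g : Matrix J' J F)
    (hg : Cl (K.map (algebraMap R F)) (L.map (algebraMap R F)) 0 g)
    (hloc : ∀ i, ∃ (N : ℕ) (t : Matrix J' J R),
      Bd (K.map (algebraMap R F)) (L.map (algebraMap R F)) 0
        (algebraMap R F (a i) ^ N • g - t.map (algebraMap R F))) :
    ∃ t : Matrix J' J R, Cl K L 0 t ∧
      Bd (K.map (algebraMap R F)) (L.map (algebraMap R F)) 0 (g - t.map (algebraMap R F)) := by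
  obtain ⟨t, ht, hgt⟩ := exists_lift a ha hK hL b hb hbl g hg.hmg hloc
  have h1 : Cl (K.map (algebraMap R F)) (L.map (algebraMap R F)) 0 (t.map (algebraMap R F)) := by
    have := hg.sub hgt.cl
    rwa [sub_sub_cancel] at this
  refine ⟨t, ⟨ht, ?_⟩, hgt⟩
  have hinj : Function.Injective (fun f : Matrix J' J R => f.map (algebraMap R F)) := by
    intro f g h
    ext i j
    exact IsFractionRing.injective R F (congrFun (congrFun h i) j)
  apply hinj
  show (L.d * t).map (algebraMap R F) = (((sg 0 : ℤ) : R) • (t * K.d)).map (algebraMap R F)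
  rw [sg_smul_map, Matrix.map_mul, Matrix.map_mul]
  exact h1.comm

end frac

/-- A closed map of degree `0` which is, up to scalars, a boundary on the cycles of degree `0` is a
boundary. -/
theorem Bd.of_cycles [IsDomain R] {l : ℕ} (a : Fin l → R) (ha : IsWeaklyRegular R (List.ofFn a))
    (hK : ∀ i, UE K (a i)) (hL : ∀ i, UE L (a i)) (b : ℕ) (hb : ∀ i j, K.deg j ≤ L.deg i + b)
    (hbl : b < l) {f : Matrix J' J R} (hf : Cl K L 0 f)
    (hc : ∀ v, Vh K 0 v → K.d *ᵥ v = 0 → ∃ s : R, s ≠ 0 ∧ ∃ w, s • (f *ᵥ v) = L.d *ᵥ w) :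
    Bd K L 0 f := by
  classical
  have ha0 : a ⟨0, by omega⟩ ≠ 0 := by
    intro h
    obtain ⟨l', rfl⟩ : ∃ l', l = l' + 1 := ⟨l - 1, by omega⟩
    rw [List.ofFn_succ, isWeaklyRegular_cons_iff] at ha
    have h2 : IsSMulRegular R (a 0) := ha.1
    have h3 : a (0 : Fin (l' + 1)) = 0 := h
    rw [h3] at h2
    have := h2 (show (0 : R) • (1 : R) = (0 : R) • (0 : R) by simp)
    exact one_ne_zero this
  obtain ⟨N, h, hh⟩ := hK ⟨0, by omega⟩
  set c := a ⟨0, by omega⟩ ^ N with hcdef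
  have hc0 : c ≠ 0 := pow_ne_zero _ ha0
  have hdp := hh.d_pr
  have hpd := hh.pr_d
  -- the columns of the projector are cycles
  have hcol : ∀ j, ∃ s : R, s ≠ 0 ∧ ∃ w, s • (f *ᵥ (fun i => K.pr c h i j)) = L.d *ᵥ w := by
    intro j
    refine hc _ ?_ ?_
    · intro i hi
      exact hh.sup i j (by rintro ⟨h1, -⟩; exact hi h1)
    · funext i
      exact congrFun (congrFun hdp i) j
  choose s hs w hw using hcol
  -- common denominator
  let S : R := ∏ j, s j
  have hS : S ≠ 0 := Finset.prod_ne_zero_iff.2 fun j _ => hs j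
  let W₀ : Matrix J' J R := Matrix.of fun i j => (∏ k ∈ Finset.univ.erase j, s k) * w j i
  have hW₀a : ∀ i j, W₀ i j = (∏ k ∈ Finset.univ.erase j, s k) * w j i := fun _ _ => rfl
  have hW₀ : S • (f * K.pr c h) = L.d * W₀ := by
    ext i j
    have h1 := congrFun (hw j) i
    have h2 : S = (∏ k ∈ Finset.univ.erase j, s k) * s j := by
      rw [mul_comm]
      exact (Finset.mul_prod_erase _ _ (Finset.mem_univ j)).symm
    rw [Matrix.smul_apply, smul_eq_mul, Matrix.mul_apply, h2, mul_assoc]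
    have h3 : s j * ∑ k, f i k * K.pr c h k j = (s j • (f *ᵥ (fun i => K.pr c h i j))) i := rfl
    rw [h3, h1]
    rw [Matrix.mulVec, dotProduct, Finset.mul_sum, Matrix.mul_apply]
    refine Finset.sum_congr rfl fun k _ => ?_
    rw [hW₀a]
    ring
  -- homogeneous part of degree `-1`
  let W₁ : Matrix J' J R := Matrix.of fun i j => if L.deg i = K.deg j - 1 then W₀ i j else 0
  have hW₁a : ∀ i j, W₁ i j = if L.deg i = K.deg j - 1 then W₀ i j else 0 := fun _ _ => rfl
  have hfp : IsHmg K L 0 (f * K.pr c h) := hf.hmg.mul' hh.sup.hmg (by norm_num)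
  have hW₁ : S • (f * K.pr c h) = L.d * W₁ := by
    rw [hW₀]
    ext i j
    by_cases hij : L.deg i = K.deg j
    · rw [Matrix.mul_apply, Matrix.mul_apply]
      refine Finset.sum_congr rfl fun k _ => ?_
      by_cases h1 : L.deg i = L.deg k + 1
      · rw [hW₁a, if_pos (by omega)]
      · rw [L.hmg i k h1, zero_mul, zero_mul]
    · rw [← hW₀, Matrix.smul_apply, hfp i j (by rw [add_zero]; exact hij), smul_zero,
        Matrix.mul_apply]
      symm
      refine Finset.sum_eq_zero fun k _ => ?_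
      by_cases h1 : L.deg i = L.deg k + 1
      · rw [hW₁a, if_neg (by omega), mul_zero]
      · rw [L.hmg i k h1, zero_mul]
  have hW₁h : IsHmg K L (-1) W₁ := by
    intro i j hij
    rw [hW₁a, if_neg (by intro h1; apply hij; rw [h1]; ring)]
  have b1 : Bd K L 0 (S • (f * K.pr c h * K.pr c h)) := by
    refine ⟨W₁ * K.pr c h, (hW₁h.mul' hh.sup.hmg (by norm_num)), ?_⟩
    rw [← Matrix.smul_mul, hW₁, Matrix.mul_assoc L.d, Matrix.mul_assoc W₁, hpd, Matrix.mul_zero,
      smul_zero, add_zero]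
  have hpp : c • K.pr c h = K.pr c h * K.pr c h + K.d * (h * K.pr c h) := by
    have h1 : K.pr c h * K.pr c h = (c • (1 : Matrix J J R) - (K.d * h + h * K.d)) * K.pr c h := rfl
    rw [h1, Matrix.sub_mul, Matrix.smul_mul, Matrix.one_mul, Matrix.add_mul, Matrix.mul_assoc h,
      hdp, Matrix.mul_zero, add_zero, Matrix.mul_assoc]
    abel
  have b2 : Bd K L 0 (f * (K.d * (h * K.pr c h))) := by
    refine ⟨f * (h * K.pr c h), (hf.hmg.mul' (hh.hmg.mul' hh.sup.hmg rfl) (by norm_num)), ?_⟩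
    rw [Matrix.mul_assoc f, Matrix.mul_assoc h, hpd, Matrix.mul_zero, Matrix.mul_zero, smul_zero,
      add_zero, ← Matrix.mul_assoc, ← hf.comm0, Matrix.mul_assoc]
  have b3 : Bd K L 0 ((S * c) • (f * K.pr c h)) := by
    have h1 : (S * c) • (f * K.pr c h) =
        S • (f * K.pr c h * K.pr c h) + S • (f * (K.d * (h * K.pr c h))) := by
      rw [mul_smul, ← Matrix.mul_smul f, hpp, Matrix.mul_add, smul_add, Matrix.mul_assoc f]
    rw [h1]
    exact b1.add (b2.smul S)
  have b4 : Bd K L 0 (f * (K.d * h + h * K.d)) := by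
    refine ⟨f * h, hf.hmg.mul' hh.hmg (by norm_num), ?_⟩
    rw [sg_zero, Matrix.mul_add, ← Matrix.mul_assoc f K.d, ← hf.comm0]
    simp only [Int.cast_one, one_smul, Matrix.mul_assoc]
  have b5 : Bd K L 0 ((S * c * c) • f) := by
    have h1 : c • f = f * K.pr c h + f * (K.d * h + h * K.d) := by
      rw [← Matrix.mul_add, pr, sub_add_cancel, Matrix.mul_smul, Matrix.mul_one]
    rw [mul_smul, h1, smul_add]
    exact b3.add (b4.smul _)
  exact Bd.of_smul a ha hK hL b hb hbl
    (mem_nonZeroDivisors_of_ne_zero (mul_ne_zero (mul_ne_zero hS hc0) hc0)) b5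

/-- A map `w` of degree `1` which is, locally on the complement of `V(a)`, the boundary of maps that
agree up to homotopy is a boundary. -/
theorem Bd.one_of_local [IsDomain R] {l : ℕ} (a : Fin l → R) (ha : IsWeaklyRegular R (List.ofFn a))
    (hK : ∀ i, UE K (a i)) (hL : ∀ i, UE L (a i)) (b : ℕ) (hb : ∀ i j, K.deg j ≤ L.deg i + b)
    (hbl : b + 1 < l) (N : Fin l → ℕ) (u : Fin l → Matrix J' J R) (w : Matrix J' J R)
    (hu : ∀ i, IsHmg K L 0 (u i)) (hw : ∀ i, L.d * u i - u i * K.d = a i ^ N i • w)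
    (huu : ∀ i j, Bd K L 0 (a j ^ N j • u i - a i ^ N i • u j)) : Bd K L 1 w := by
  classical
  obtain ⟨t, ht, htu⟩ := Pool.Agent.Licci.depth_extend a ha (hmg_lic (Hom K L)) (Hom K L).sq
    (fun i => (UE.iff_licci _ _).1 ((hK i).hom (hL i))) b (Hom_bot b hb) hbl N
    (fun i => vec (u i)) (fun i => vh_iff_supp.1 (vec_hmg.2 (hu i))) (by
      intro i j
      obtain ⟨v, hv1, hv2⟩ := bd_iff.1 (huu i j)
      exact ⟨v, by rw [hv2]; rfl⟩)
  let t' : Matrix J' J R := Matrix.of fun i j => t (i, j)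
  have ht' : IsHmg K L 0 t' := by
    rw [← vec_hmg, vec_of]; exact vh_iff_supp.2 ht
  have ha0 : a ⟨0, by omega⟩ ≠ 0 := by
    intro h
    obtain ⟨l', rfl⟩ : ∃ l', l = l' + 1 := ⟨l - 1, by omega⟩
    rw [List.ofFn_succ, isWeaklyRegular_cons_iff] at ha
    have h2 : IsSMulRegular R (a 0) := ha.1
    have h3 : a (0 : Fin (l' + 1)) = 0 := h
    rw [h3] at h2
    have := h2 (show (0 : R) • (1 : R) = (0 : R) • (0 : R) by simp)
    exact one_ne_zero this
  obtain ⟨y, hy1, hy2⟩ := htu ⟨0, by omega⟩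
  have hb1 : Bd K L 0 (a ⟨0, by omega⟩ ^ N ⟨0, by omega⟩ • t' - u ⟨0, by omega⟩) := by
    rw [bd_iff]
    refine ⟨y, vh_iff_supp.2 (by rw [zero_sub]; exact hy1), ?_⟩
    rw [← hy2]; rfl
  have hcl := hb1.cl.comm0
  rw [Matrix.mul_sub, Matrix.sub_mul, Matrix.mul_smul, Matrix.smul_mul] at hcl
  refine ⟨t', by rw [sub_self]; exact ht', ?_⟩
  have hinj : Function.Injective (fun f : Matrix J' J R => a ⟨0, by omega⟩ ^ N ⟨0, by omega⟩ • f) := by
    intro f g h
    ext i j
    have := congrFun (congrFun h i) j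
    exact mul_left_cancel₀ (pow_ne_zero _ ha0) this
  apply hinj
  show a ⟨0, by omega⟩ ^ N ⟨0, by omega⟩ • w = a ⟨0, by omega⟩ ^ N ⟨0, by omega⟩ • (L.d * t' + ((sg 1 : ℤ) : R) • (t' * K.d))
  rw [← hw, sg_one]
  push_cast
  rw [neg_one_smul, ← sub_eq_add_neg, smul_sub]
  rw [sub_eq_sub_iff_sub_eq_sub] at hcl
  rw [← sub_eq_zero] at hcl ⊢
  rw [← neg_eq_zero, ← hcl]
  abel

end Cx

end LicciCx
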