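import Pool.Agent.Work.MP_a98e4e_ag.Cx.Cone

/-!
# Maps into and out of extensions
-/

set_option autoImplicit false
set_option linter.unusedSectionVars false

open Matrix Kronecker

namespace LicciCx

variable {R : Type*} [CommRing R]

section blocks

variable {A A' B B' : Type*} {p : A → ℤ} {p' : A' → ℤ} {q : B → ℤ} {q' : B' → ℤ} {n : ℤ}

/-- a change of the degrees of the target -/
theorem Hmg.congrL {f : Matrix A' A R} (hf : Hmg p' p n f) {p₁ : A' → ℤ} {m : ℤ}
    (h : ∀ i, p₁ i = p' i + m) : Hmg p₁ p (n + m) f := by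
  intro i j hij
  exact hf i j (by intro h2; apply hij; rw [h i, h2]; ring)

/-- a change of the degrees of the source -/
theorem Hmg.congrR {f : Matrix A' A R} (hf : Hmg p' p n f) {p₁ : A → ℤ} {m : ℤ}
    (h : ∀ i, p₁ i = p i + m) : Hmg p' p₁ (n - m) f := by
  intro i j hij
  exact hf i j (by intro h2; apply hij; rw [h j, h2]; ring)

theorem Hmg.fromCols_inl {f : Matrix A' A R} {g : Matrix A' B R}
    (hfg : Hmg p' (Sum.elim p q) n (Matrix.fromCols f g)) : Hmg p' p n f :=
  fun i j hij => hfg i (Sum.inl j) hij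

theorem Hmg.fromCols_inr {f : Matrix A' A R} {g : Matrix A' B R}
    (hfg : Hmg p' (Sum.elim p q) n (Matrix.fromCols f g)) : Hmg p' q n g :=
  fun i j hij => hfg i (Sum.inr j) hij

end blocks

namespace Cx

variable {J J' J'' : Type*} [Fintype J] [Fintype J'] [Fintype J'']
  [DecidableEq J] [DecidableEq J'] [DecidableEq J'']

variable {K : Cx R J} {L : Cx R J'} {T : Cx R J''} {n m : ℤ}

/-- A map into an extension: `s : T → L` closed and `u : T → K` of degree `0` with
`d u + θ s = u d`. -/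
theorem Cl.toExt {θ : Matrix J J' R} (hθ : Cl L K 1 θ) {u : Matrix J J'' R}
    {s : Matrix J' J'' R} (hu : IsHmg T K 0 u) (hs : Cl T L 0 s)
    (h : K.d * u + θ * s = u * T.d) : Cl T (ext hθ) 0 (Matrix.fromRows u s) :=
  Cl.mk0 (Hmg.fromRows hu hs.hmg) (by
    rw [ext_d, Matrix.fromBlocks_mul_fromRows, Matrix.fromRows_mul, h]
    congr 1
    rw [Matrix.zero_mul, zero_add, hs.comm0])

/-- A map out of an extension. -/
theorem Cl.ofExt {θ : Matrix J J' R} (hθ : Cl L K 1 θ) {u : Matrix J'' J R}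
    {s : Matrix J'' J' R} (hu : Cl K T 0 u) (hs : IsHmg L T 0 s)
    (h : T.d * s = u * θ + s * L.d) : Cl (ext hθ) T 0 (Matrix.fromCols u s) :=
  Cl.mk0 (Hmg.fromCols hu.hmg hs) (by
    rw [ext_d, Matrix.fromCols_mul_fromBlocks, Matrix.mul_fromCols, hu.comm0, h]
    congr 1
    rw [Matrix.mul_zero, add_zero])

end Cx

end LicciCx
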