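import Mathlib

/-!
# Finite free complexes as matrices

A complex is a finite index type `J` with a degree function `deg : J → ℤ` and a square zero
matrix `d` which is homogeneous of degree one.  Maps are matrices, chain maps of degree `n` are
the matrices `f` homogeneous of degree `n` with `d f = (-1) ^ n f d`, homotopies are matrices of
degree `n - 1`.  The Hom complex `Hom K L` is `L ⊗ K^∨`, and `Matrix` and vectors of `Hom K L` are
identified by currying.
-/

set_option autoImplicit false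
set_option linter.unusedSectionVars false

open Matrix Kronecker

namespace LicciCx

variable {R : Type*} [CommRing R]

/-- the sign `(-1) ^ n` as an integer -/
def sg (n : ℤ) : ℤ := (n.negOnePow : ℤ)

theorem sg_zero : sg 0 = 1 := by simp [sg]

theorem sg_add (m n : ℤ) : sg (m + n) = sg m * sg n := by
  simp [sg, Int.negOnePow_add]

theorem sg_neg (n : ℤ) : sg (-n) = sg n := by
  simp [sg, Int.negOnePow_neg]

theorem sg_mul_self (n : ℤ) : sg n * sg n = 1 := by
  rw [← sg_add, ← two_mul]; simp [sg]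

theorem sg_one : sg 1 = -1 := by simp [sg]

theorem sg_sub (m n : ℤ) : sg (m - n) = sg m * sg n := by
  rw [sub_eq_add_neg, sg_add, sg_neg]

theorem sg_eq (n : ℤ) : sg n = 1 ∨ sg n = -1 := by
  rcases Int.units_eq_one_or n.negOnePow with h | h <;> simp [sg, h]

theorem sg_even {n : ℤ} (h : Even n) : sg n = 1 := by simp [sg, Int.negOnePow_even n h]

theorem sg_odd {n : ℤ} (h : Odd n) : sg n = -1 := by simp [sg, Int.negOnePow_odd n h]

/-! ## Homogeneous matrices -/

section Hmg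

variable {J J' J'' J₁ J₁' : Type*}

/-- A matrix `f : J' × J` is homogeneous of degree `n` if its entries vanish unless
`deg i = deg j + n`. -/
def Hmg (p' : J' → ℤ) (p : J → ℤ) (n : ℤ) (f : Matrix J' J R) : Prop :=
  ∀ i j, p' i ≠ p j + n → f i j = 0

variable {p : J → ℤ} {p' : J' → ℤ} {p'' : J'' → ℤ} {p₁ : J₁ → ℤ} {p₁' : J₁' → ℤ} {n m : ℤ}

theorem Hmg.zero : Hmg p' p n (0 : Matrix J' J R) := fun _ _ _ => rfl

theorem Hmg.one [DecidableEq J] : Hmg p p 0 (1 : Matrix J J R) := by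
  intro i j h
  refine Matrix.one_apply_ne ?_
  rintro rfl; simp at h

theorem Hmg.add {f g : Matrix J' J R} (hf : Hmg p' p n f) (hg : Hmg p' p n g) :
    Hmg p' p n (f + g) := by
  intro i j h; simp [hf i j h, hg i j h]

theorem Hmg.sub {f g : Matrix J' J R} (hf : Hmg p' p n f) (hg : Hmg p' p n g) :
    Hmg p' p n (f - g) := by
  intro i j h; simp [hf i j h, hg i j h]

theorem Hmg.neg {f : Matrix J' J R} (hf : Hmg p' p n f) : Hmg p' p n (-f) := by
  intro i j h; simp [hf i j h]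

theorem Hmg.smul {S : Type*} [SMulZeroClass S R] (c : S) {f : Matrix J' J R}
    (hf : Hmg p' p n f) : Hmg p' p n (c • f) := by
  intro i j h; simp [hf i j h]

theorem Hmg.sum {ι : Type*} (s : Finset ι) {f : ι → Matrix J' J R}
    (hf : ∀ i ∈ s, Hmg p' p n (f i)) : Hmg p' p n (∑ i ∈ s, f i) := by
  intro i j h
  rw [Matrix.sum_apply]
  exact Finset.sum_eq_zero fun k hk => hf k hk i j h

theorem Hmg.mul [Fintype J'] {f : Matrix J'' J' R} {g : Matrix J' J R}
    (hf : Hmg p'' p' n f) (hg : Hmg p' p m g) : Hmg p'' p (n + m) (f * g) := by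
  intro i j h
  rw [Matrix.mul_apply]
  refine Finset.sum_eq_zero fun k _ => ?_
  by_cases h1 : p' k = p j + m
  · rw [hf i k (by intro h2; apply h; rw [h2, h1]; ring), zero_mul]
  · rw [hg k j h1, mul_zero]

theorem Hmg.mul' [Fintype J'] {f : Matrix J'' J' R} {g : Matrix J' J R} {k : ℤ}
    (hf : Hmg p'' p' n f) (hg : Hmg p' p m g) (hk : n + m = k) : Hmg p'' p k (f * g) :=
  hk ▸ hf.mul hg

theorem Hmg.cast {f : Matrix J' J R} {k : ℤ} (hf : Hmg p' p n f) (hk : n = k) :
    Hmg p' p k f := hk ▸ hf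

theorem Hmg.transpose {f : Matrix J' J R} (hf : Hmg p' p n f) :
    Hmg (fun j => -p j) (fun i => -p' i) n fᵀ := by
  intro j i h
  exact hf i j (by intro h2; apply h; simp only; omega)

theorem Hmg.kron {f : Matrix J' J R} {g : Matrix J₁' J₁ R} (hf : Hmg p' p n f)
    (hg : Hmg p₁' p₁ m g) :
    Hmg (fun x : J' × J₁' => p' x.1 + p₁' x.2) (fun x : J × J₁ => p x.1 + p₁ x.2) (n + m)
      (f ⊗ₖ g) := by
  rintro ⟨i, i'⟩ ⟨j, j'⟩ h
  rw [Matrix.kroneckerMap_apply]
  by_cases h1 : p' i = p j + n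
  · have h2 : p₁' i' ≠ p₁ j' + m := by intro h2; apply h; simp only; omega
    simp only [hg i' j' h2, mul_zero]
  · simp only [hf i j h1, zero_mul]

theorem Hmg.map {S : Type*} [CommRing S] (φ : R →+* S) {f : Matrix J' J R}
    (hf : Hmg p' p n f) : Hmg p' p n (f.map φ) := by
  intro i j h; simp [hf i j h]

/-- the parity operator -/
def ep (R : Type*) [CommRing R] [DecidableEq J] (p : J → ℤ) : Matrix J J R :=
  Matrix.diagonal fun j => ((sg (p j) : ℤ) : R)

variable [DecidableEq J] [DecidableEq J'] [DecidableEq J₁]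

theorem ep_hmg : Hmg p p 0 (ep R p) := by
  intro i j h
  refine Matrix.diagonal_apply_ne _ ?_
  rintro rfl; simp at h

theorem ep_mul_self [Fintype J] : ep R p * ep R p = 1 := by
  rw [ep, Matrix.diagonal_mul_diagonal, ← Matrix.diagonal_one]
  congr 1; ext j
  rw [← Int.cast_mul, sg_mul_self, Int.cast_one]

theorem ep_mul [Fintype J] [Fintype J'] {f : Matrix J' J R} (hf : Hmg p' p n f) :
    ep R p' * f = ((sg n : ℤ) : R) • (f * ep R p) := by
  ext i j
  simp only [ep, Matrix.diagonal_mul, Matrix.mul_diagonal, Matrix.smul_apply, smul_eq_mul]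
  by_cases h : p' i = p j + n
  · rw [h, sg_add]; push_cast; ring
  · rw [hf i j h]; simp

theorem ep_mul_even [Fintype J] [Fintype J'] {f : Matrix J' J R} (hf : Hmg p' p 0 f) :
    ep R p' * f = f * ep R p := by
  rw [ep_mul hf, sg_zero]; simp

theorem ep_mul_odd [Fintype J] [Fintype J'] {f : Matrix J' J R} (hf : Hmg p' p 1 f) :
    ep R p' * f = -(f * ep R p) := by
  rw [ep_mul hf, sg_one]; simp

theorem ep_mul_odd' [Fintype J] [Fintype J'] {f : Matrix J' J R} (hf : Hmg p' p (-1) f) :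
    ep R p' * f = -(f * ep R p) := by
  rw [ep_mul hf, sg_neg, sg_one]; simp

theorem ep_transpose : (ep R p)ᵀ = ep R p := by
  simp [ep]

theorem ep_neg : ep R (fun j => -p j) = ep R p := by
  simp [ep, sg_neg]

theorem ep_kron : ep R (fun x : J × J₁ => p x.1 + p₁ x.2) = ep R p ⊗ₖ ep R p₁ := by
  rw [ep, ep, ep, Matrix.diagonal_kronecker_diagonal]
  congr 1; ext x; rw [sg_add, Int.cast_mul]

theorem ep_map {S : Type*} [CommRing S] (φ : R →+* S) : (ep R p).map φ = ep S p := by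
  rw [ep, ep, Matrix.diagonal_map (map_zero φ)]
  congr 1; ext j; simp

end Hmg

/-! ## Complexes -/

/-- A bounded complex of finite free modules over `R` with basis indexed by `J`. -/
structure Cx (R : Type*) [CommRing R] (J : Type*) [Fintype J] where
  /-- the degrees of the basis elements -/
  deg : J → ℤ
  /-- the differential -/
  d : Matrix J J R
  hmg : Hmg deg deg 1 d
  sq : d * d = 0

namespace Cx

variable {S : Type*} [CommRing S] {J J' J'' : Type*} [Fintype J] [Fintype J'] [Fintype J'']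
  [DecidableEq J] [DecidableEq J'] [DecidableEq J'']

/-- the parity operator of a complex -/
abbrev e (K : Cx R J) : Matrix J J R := ep R K.deg

theorem e_mul_self (K : Cx R J) : K.e * K.e = 1 := ep_mul_self

theorem e_mul_d (K : Cx R J) : K.e * K.d = -(K.d * K.e) := ep_mul_odd K.hmg

theorem d_mul_e (K : Cx R J) : K.d * K.e = -(K.e * K.d) := by rw [e_mul_d, neg_neg]

theorem e_hmg (K : Cx R J) : Hmg K.deg K.deg 0 K.e := ep_hmg

/-- `f : K → L` is homogeneous of degree `n` -/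
abbrev IsHmg (K : Cx R J) (L : Cx R J') (n : ℤ) (f : Matrix J' J R) : Prop := Hmg L.deg K.deg n f

/-- closed maps of degree `n` -/
structure Cl (K : Cx R J) (L : Cx R J') (n : ℤ) (f : Matrix J' J R) : Prop where
  hmg : IsHmg K L n f
  comm : L.d * f = ((sg n : ℤ) : R) • (f * K.d)

/-- `f` is a boundary of degree `n` in the Hom complex. -/
def Bd (K : Cx R J) (L : Cx R J') (n : ℤ) (f : Matrix J' J R) : Prop :=
  ∃ s : Matrix J' J R, IsHmg K L (n - 1) s ∧ f = L.d * s + ((sg n : ℤ) : R) • (s * K.d)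

variable {K : Cx R J} {L : Cx R J'} {M : Cx R J''} {n m : ℤ}

theorem Cl.zero : Cl K L n 0 := ⟨Hmg.zero, by simp⟩

theorem Cl.one : Cl K K 0 1 := ⟨Hmg.one, by simp [sg_zero]⟩

theorem Cl.add {f g : Matrix J' J R} (hf : Cl K L n f) (hg : Cl K L n g) : Cl K L n (f + g) :=
  ⟨hf.hmg.add hg.hmg, by rw [Matrix.mul_add, hf.comm, hg.comm, Matrix.add_mul, smul_add]⟩

theorem Cl.sub {f g : Matrix J' J R} (hf : Cl K L n f) (hg : Cl K L n g) : Cl K L n (f - g) :=
  ⟨hf.hmg.sub hg.hmg, by rw [Matrix.mul_sub, hf.comm, hg.comm, Matrix.sub_mul, smul_sub]⟩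

theorem Cl.neg {f : Matrix J' J R} (hf : Cl K L n f) : Cl K L n (-f) :=
  ⟨hf.hmg.neg, by rw [Matrix.mul_neg, hf.comm, Matrix.neg_mul, smul_neg]⟩

theorem Cl.smul (c : R) {f : Matrix J' J R} (hf : Cl K L n f) : Cl K L n (c • f) :=
  ⟨hf.hmg.smul c, by rw [Matrix.mul_smul, hf.comm, Matrix.smul_mul, smul_comm]⟩

theorem Cl.mul {f : Matrix J'' J' R} {g : Matrix J' J R} (hf : Cl L M n f) (hg : Cl K L m g) :
    Cl K M (n + m) (f * g) :=
  ⟨hf.hmg.mul hg.hmg, by
    rw [← Matrix.mul_assoc, hf.comm, Matrix.smul_mul, Matrix.mul_assoc, hg.comm,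
      Matrix.mul_smul, smul_smul, Matrix.mul_assoc, sg_add, Int.cast_mul]⟩

theorem Cl.cast {f : Matrix J' J R} (hf : Cl K L n f) (h : n = m) : Cl K L m f := h ▸ hf

theorem Cl.comm0 {f : Matrix J' J R} (hf : Cl K L 0 f) : L.d * f = f * K.d := by
  rw [hf.comm, sg_zero]; simp

theorem Cl.mk0 {f : Matrix J' J R} (h : IsHmg K L 0 f) (hc : L.d * f = f * K.d) : Cl K L 0 f :=
  ⟨h, by rw [hc, sg_zero]; simp⟩

theorem Cl.comm1 {f : Matrix J' J R} (hf : Cl K L 1 f) : L.d * f = -(f * K.d) := by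
  rw [hf.comm, sg_one]; simp

theorem Cl.mk1 {f : Matrix J' J R} (h : IsHmg K L 1 f) (hc : L.d * f = -(f * K.d)) : Cl K L 1 f :=
  ⟨h, by rw [hc, sg_one]; simp⟩

theorem Bd.zero : Bd K L n 0 := ⟨0, Hmg.zero, by simp⟩

theorem Bd.add {f g : Matrix J' J R} (hf : Bd K L n f) (hg : Bd K L n g) : Bd K L n (f + g) := by
  obtain ⟨s, hs, rfl⟩ := hf
  obtain ⟨t, ht, rfl⟩ := hg
  refine ⟨s + t, hs.add ht, ?_⟩
  rw [Matrix.mul_add, Matrix.add_mul, smul_add]; abel

theorem Bd.neg {f : Matrix J' J R} (hf : Bd K L n f) : Bd K L n (-f) := by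
  obtain ⟨s, hs, rfl⟩ := hf
  refine ⟨-s, hs.neg, ?_⟩
  rw [Matrix.mul_neg, Matrix.neg_mul, smul_neg]; abel

theorem Bd.sub {f g : Matrix J' J R} (hf : Bd K L n f) (hg : Bd K L n g) : Bd K L n (f - g) := by
  rw [sub_eq_add_neg]; exact hf.add hg.neg

theorem Bd.smul (c : R) {f : Matrix J' J R} (hf : Bd K L n f) : Bd K L n (c • f) := by
  obtain ⟨s, hs, rfl⟩ := hf
  refine ⟨c • s, hs.smul c, ?_⟩
  rw [smul_add, Matrix.mul_smul, Matrix.smul_mul, smul_comm c]

theorem Bd.hmg {f : Matrix J' J R} (hf : Bd K L n f) : IsHmg K L n f := by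
  obtain ⟨s, hs, rfl⟩ := hf
  exact (L.hmg.mul' hs (by ring)).add ((hs.mul' K.hmg (by ring)).smul _)

theorem Bd.cl {f : Matrix J' J R} (hf : Bd K L n f) : Cl K L n f := by
  refine ⟨hf.hmg, ?_⟩
  obtain ⟨s, hs, rfl⟩ := hf
  rw [Matrix.mul_add, ← Matrix.mul_assoc, L.sq, Matrix.zero_mul, zero_add, Matrix.mul_smul, Matrix.add_mul,
    Matrix.smul_mul, Matrix.mul_assoc s, K.sq, Matrix.mul_zero, smul_zero, add_zero, Matrix.mul_assoc]

theorem Bd.mul_cl {f : Matrix J'' J' R} {g : Matrix J' J R} (hf : Bd L M n f) (hg : Cl K L m g) :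
    Bd K M (n + m) (f * g) := by
  obtain ⟨s, hs, rfl⟩ := hf
  refine ⟨s * g, hs.mul' hg.hmg (by ring), ?_⟩
  rw [Matrix.add_mul, Matrix.smul_mul, Matrix.mul_assoc s, hg.comm, Matrix.mul_smul, smul_smul,
    Matrix.mul_assoc, Matrix.mul_assoc, sg_add, Int.cast_mul]

theorem Cl.mul_bd {f : Matrix J'' J' R} {g : Matrix J' J R} (hf : Cl L M n f) (hg : Bd K L m g) :
    Bd K M (n + m) (f * g) := by
  obtain ⟨s, hs, rfl⟩ := hg
  refine ⟨((sg n : ℤ) : R) • (f * s), (hf.hmg.mul' hs (by ring)).smul _, ?_⟩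
  have h1 : ((sg n : ℤ) : R) * ((sg n : ℤ) : R) = 1 := by
    rw [← Int.cast_mul, sg_mul_self, Int.cast_one]
  rw [Matrix.mul_smul, ← Matrix.mul_assoc, hf.comm, Matrix.smul_mul, smul_smul, h1, one_smul,
    Matrix.mul_add, Matrix.mul_smul, Matrix.smul_mul, smul_smul, Matrix.mul_assoc, Matrix.mul_assoc]
  congr 2
  rw [sg_add, Int.cast_mul, mul_comm (((sg n : ℤ) : R)) (((sg m : ℤ) : R)), mul_assoc, h1,
    mul_one]

end Cx

end LicciCx
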