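import Pool.Agent.Work.MP_a98e4e_ag.Cx.Tensor

/-!
# Cones, fibres, extensions, base change

* `cone hf` for `f : K → L` closed of degree `0`: `L ⊕ K[1]`, differential `[[d_L, f], [0, -d_K]]`.
* `fib hf` : `K ⊕ L[-1]`, differential `[[d_K, 0], [f, -d_L]]`.
* `ext hθ` for `θ : L → K` closed of degree `1`: `K ⊕ L`, differential `[[d_K, θ], [0, d_L]]`.
* `free n` : a free module in degree `n`.
-/

set_option autoImplicit false
set_option linter.unusedSectionVars false

open Matrix Kronecker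

namespace LicciCx

variable {R : Type*} [CommRing R]

section blocks

variable {A A' B B' : Type*} {p : A → ℤ} {p' : A' → ℤ} {q : B → ℤ} {q' : B' → ℤ} {n : ℤ}

theorem Hmg.fromBlocks {f : Matrix A' A R} {g : Matrix A' B R} {h : Matrix B' A R}
    {l : Matrix B' B R} (hf : Hmg p' p n f) (hg : Hmg p' q n g) (hh : Hmg q' p n h)
    (hl : Hmg q' q n l) :
    Hmg (Sum.elim p' q') (Sum.elim p q) n (Matrix.fromBlocks f g h l) := by
  rintro (i | i) (j | j) hij
  · exact hf i j hij
  · exact hg i j hij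
  · exact hh i j hij
  · exact hl i j hij

theorem Hmg.fromRows {f : Matrix A' A R} {h : Matrix B' A R} (hf : Hmg p' p n f)
    (hh : Hmg q' p n h) : Hmg (Sum.elim p' q') p n (Matrix.fromRows f h) := by
  rintro (i | i) j hij
  · exact hf i j hij
  · exact hh i j hij

theorem Hmg.fromCols {f : Matrix A' A R} {g : Matrix A' B R} (hf : Hmg p' p n f)
    (hg : Hmg p' q n g) : Hmg p' (Sum.elim p q) n (Matrix.fromCols f g) := by
  rintro i (j | j) hij
  · exact hf i j hij
  · exact hg i j hij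

/-- a change of degrees by a shift of the target -/
theorem Hmg.shiftL {f : Matrix A' A R} (hf : Hmg p' p n f) (m : ℤ) :
    Hmg (fun i => p' i + m) p (n + m) f := by
  intro i j h
  exact hf i j (by intro h2; apply h; simp only; omega)

/-- a change of degrees by a shift of the source -/
theorem Hmg.shiftR {f : Matrix A' A R} (hf : Hmg p' p n f) (m : ℤ) :
    Hmg p' (fun i => p i + m) (n - m) f := by
  intro i j h
  exact hf i j (by intro h2; apply h; simp only; omega)

theorem Hmg.shift {f : Matrix A' A R} (hf : Hmg p' p n f) (m : ℤ) :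
    Hmg (fun i => p' i + m) (fun i => p i + m) n f :=
  ((hf.shiftL m).shiftR m).cast (by ring)

theorem Hmg.fromRows_inl {f : Matrix A' A R} {h : Matrix B' A R}
    (hfh : Hmg (Sum.elim p' q') p n (Matrix.fromRows f h)) : Hmg p' p n f :=
  fun i j hij => hfh (Sum.inl i) j hij

theorem Hmg.fromRows_inr {f : Matrix A' A R} {h : Matrix B' A R}
    (hfh : Hmg (Sum.elim p' q') p n (Matrix.fromRows f h)) : Hmg q' p n h :=
  fun i j hij => hfh (Sum.inr i) j hij

end blocks

namespace Cx

variable {J J' J'' : Type*} [Fintype J] [Fintype J'] [Fintype J'']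
  [DecidableEq J] [DecidableEq J'] [DecidableEq J'']

/-- a free module concentrated in degree `n` -/
def free (R : Type*) [CommRing R] (J : Type*) [Fintype J] (n : ℤ) : Cx R J where
  deg _ := n
  d := 0
  hmg := Hmg.zero
  sq := by simp

@[simp] theorem free_d (n : ℤ) : (free R J n).d = 0 := rfl

@[simp] theorem free_deg (n : ℤ) (j : J) : (free R J n).deg j = n := rfl

variable {K : Cx R J} {L : Cx R J'} {T : Cx R J''} {n m : ℤ}

/-- the mapping cone of a closed map of degree `0` -/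
def cone {f : Matrix J' J R} (hf : Cl K L 0 f) : Cx R (J' ⊕ J) where
  deg := Sum.elim L.deg (fun j => K.deg j + (-1))
  d := Matrix.fromBlocks L.d f 0 (-K.d)
  hmg := Hmg.fromBlocks L.hmg ((hf.hmg.shiftR (-1)).cast (by ring)) Hmg.zero
    (K.hmg.neg.shift (-1))
  sq := by
    rw [Matrix.fromBlocks_multiply]
    simp [L.sq, K.sq, hf.comm0]

/-- the homotopy fibre of a closed map of degree `0` -/
def fib {f : Matrix J' J R} (hf : Cl K L 0 f) : Cx R (J ⊕ J') where
  deg := Sum.elim K.deg (fun j => L.deg j + 1)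
  d := Matrix.fromBlocks K.d 0 f (-L.d)
  hmg := Hmg.fromBlocks K.hmg Hmg.zero ((hf.hmg.shiftL 1).cast (by ring)) (L.hmg.neg.shift 1)
  sq := by
    rw [Matrix.fromBlocks_multiply]
    simp [L.sq, K.sq, hf.comm0]

/-- the extension of `L` by `K` with class `θ : L → K` (closed of degree `1`) -/
def ext {θ : Matrix J J' R} (hθ : Cl L K 1 θ) : Cx R (J ⊕ J') where
  deg := Sum.elim K.deg L.deg
  d := Matrix.fromBlocks K.d θ 0 L.d
  hmg := Hmg.fromBlocks K.hmg hθ.hmg Hmg.zero L.hmg
  sq := by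
    rw [Matrix.fromBlocks_multiply]
    simp [L.sq, K.sq, hθ.comm1]

theorem cone_d {f : Matrix J' J R} (hf : Cl K L 0 f) :
    (cone hf).d = Matrix.fromBlocks L.d f 0 (-K.d) := rfl

theorem fib_d {f : Matrix J' J R} (hf : Cl K L 0 f) :
    (fib hf).d = Matrix.fromBlocks K.d 0 f (-L.d) := rfl

theorem ext_d {θ : Matrix J J' R} (hθ : Cl L K 1 θ) :
    (ext hθ).d = Matrix.fromBlocks K.d θ 0 L.d := rfl

theorem cone_deg {f : Matrix J' J R} (hf : Cl K L 0 f) :
    (cone hf).deg = Sum.elim L.deg (fun j => K.deg j + (-1)) := rfl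

theorem fib_deg {f : Matrix J' J R} (hf : Cl K L 0 f) :
    (fib hf).deg = Sum.elim K.deg (fun j => L.deg j + 1) := rfl

theorem ext_deg {θ : Matrix J J' R} (hθ : Cl L K 1 θ) :
    (ext hθ).deg = Sum.elim K.deg L.deg := rfl

/-! ### inclusions and projections -/

theorem ext_inl {θ : Matrix J J' R} (hθ : Cl L K 1 θ) :
    Cl K (ext hθ) 0 (Matrix.fromRows 1 0) :=
  Cl.mk0 (Hmg.fromRows Hmg.one Hmg.zero) (by
    rw [ext_d, Matrix.fromBlocks_mul_fromRows, Matrix.fromRows_mul]; simp)

theorem ext_pr {θ : Matrix J J' R} (hθ : Cl L K 1 θ) :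
    Cl (ext hθ) L 0 (Matrix.fromCols 0 1) :=
  Cl.mk0 (Hmg.fromCols Hmg.zero Hmg.one) (by
    rw [ext_d, Matrix.fromCols_mul_fromBlocks, Matrix.mul_fromCols]; simp)

theorem cone_inl {f : Matrix J' J R} (hf : Cl K L 0 f) :
    Cl L (cone hf) 0 (Matrix.fromRows 1 0) :=
  Cl.mk0 (Hmg.fromRows Hmg.one Hmg.zero) (by
    rw [cone_d, Matrix.fromBlocks_mul_fromRows, Matrix.fromRows_mul]; simp)

theorem cone_pr {f : Matrix J' J R} (hf : Cl K L 0 f) :
    Cl (cone hf) K 1 (Matrix.fromCols 0 1) :=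
  Cl.mk1 (Hmg.fromCols Hmg.zero ((Hmg.one.shiftR (-1)).cast (by ring))) (by
    rw [cone_d, Matrix.fromCols_mul_fromBlocks, Matrix.mul_fromCols]
    ext i (j | j) <;> simp)

theorem fib_inr {f : Matrix J' J R} (hf : Cl K L 0 f) :
    Cl L (fib hf) 1 (Matrix.fromRows 0 1) :=
  Cl.mk1 (Hmg.fromRows Hmg.zero ((Hmg.one.shiftL 1).cast (by ring))) (by
    rw [fib_d, Matrix.fromBlocks_mul_fromRows, Matrix.fromRows_mul]
    ext (i | i) j <;> simp)

theorem fib_pr {f : Matrix J' J R} (hf : Cl K L 0 f) :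
    Cl (fib hf) K 0 (Matrix.fromCols 1 0) :=
  Cl.mk0 (Hmg.fromCols Hmg.one Hmg.zero) (by
    rw [fib_d, Matrix.fromCols_mul_fromBlocks, Matrix.mul_fromCols]; simp)

/-! ### maps into a fibre, maps out of a cone -/

/-- A map into the fibre: a map `u` to `K` and a homotopy `s` from `f u` to `0`. -/
theorem Cl.toFib {f : Matrix J' J R} (hf : Cl K L 0 f) {u : Matrix J J'' R}
    {s : Matrix J' J'' R} (hu : Cl T K 0 u) (hs : IsHmg T L (-1) s)
    (h : f * u = L.d * s + s * T.d) : Cl T (fib hf) 0 (Matrix.fromRows u s) :=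
  Cl.mk0 (Hmg.fromRows hu.hmg ((Hmg.shiftL hs 1).cast (by ring))) (by
    rw [fib_d, Matrix.fromBlocks_mul_fromRows, Matrix.fromRows_mul, hu.comm0, h]
    congr 1
    · simp
    · rw [Matrix.neg_mul]; abel)

/-- A map out of the cone: a map `u` from `L` and a homotopy `s` from `u f` to `0`. -/
theorem Cl.ofCone {f : Matrix J' J R} (hf : Cl K L 0 f) {u : Matrix J'' J' R}
    {s : Matrix J'' J R} (hu : Cl L T 0 u) (hs : IsHmg K T (-1) s)
    (h : u * f = T.d * s + s * K.d) : Cl (cone hf) T 0 (Matrix.fromCols u s) :=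
  Cl.mk0 (Hmg.fromCols hu.hmg ((Hmg.shiftR hs (-1)).cast (by ring))) (by
    rw [cone_d, Matrix.fromCols_mul_fromBlocks, Matrix.mul_fromCols, hu.comm0, h]
    congr 1
    · simp
    · rw [Matrix.mul_neg]; abel)

/-- A map into the cone: `u : T → L` of degree `0` and `s : T → K` closed of degree `1` with
`d u + f s = u d`. -/
theorem Cl.toCone {f : Matrix J' J R} (hf : Cl K L 0 f) {u : Matrix J' J'' R}
    {s : Matrix J J'' R} (hu : IsHmg T L 0 u) (hs : Cl T K 1 s)
    (h : L.d * u + f * s = u * T.d) : Cl T (cone hf) 0 (Matrix.fromRows u s) :=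
  Cl.mk0 (Hmg.fromRows hu ((Hmg.shiftL hs.hmg (-1)).cast (by ring))) (by
    rw [cone_d, Matrix.fromBlocks_mul_fromRows, Matrix.fromRows_mul, h]
    congr 1
    rw [Matrix.zero_mul, zero_add, Matrix.neg_mul, hs.comm1, neg_neg])

/-! ### base change -/

/-- base change of a complex -/
def map {S : Type*} [CommRing S] (φ : R →+* S) (K : Cx R J) : Cx S J where
  deg := K.deg
  d := K.d.map φ
  hmg := K.hmg.map φ
  sq := by
    rw [← Matrix.map_mul, K.sq]
    ext i j; simp

section map

variable {S : Type*} [CommRing S] (φ : R →+* S)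

@[simp] theorem map_d (K : Cx R J) : (K.map φ).d = K.d.map φ := rfl

@[simp] theorem map_deg (K : Cx R J) : (K.map φ).deg = K.deg := rfl

theorem map_e (K : Cx R J) : (K.map φ).e = K.e.map φ := (ep_map φ).symm

theorem sg_smul_map (n : ℤ) (f : Matrix J' J R) :
    (((sg n : ℤ) : R) • f).map φ = ((sg n : ℤ) : S) • f.map φ := by
  ext i j; simp

theorem Cl.map {f : Matrix J' J R} (hf : Cl K L n f) : Cl (K.map φ) (L.map φ) n (f.map φ) :=
  ⟨Hmg.map φ hf.hmg, by
    rw [map_d, map_d, ← Matrix.map_mul, ← Matrix.map_mul, hf.comm, sg_smul_map]⟩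

theorem Bd.map {f : Matrix J' J R} (hf : Bd K L n f) : Bd (K.map φ) (L.map φ) n (f.map φ) := by
  obtain ⟨s, hs, rfl⟩ := hf
  refine ⟨s.map φ, Hmg.map φ hs, ?_⟩
  rw [map_d, map_d, ← Matrix.map_mul, ← Matrix.map_mul, ← sg_smul_map]
  exact Matrix.map_add φ (fun a b => map_add φ a b) _ _

theorem one_map : (1 : Matrix J J R).map φ = 1 := Matrix.map_one φ φ.map_zero φ.map_one

theorem map_add' (f g : Matrix J' J R) : (f + g).map φ = f.map φ + g.map φ := by ext; simp

theorem map_sub' (f g : Matrix J' J R) : (f - g).map φ = f.map φ - g.map φ := by ext; simp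

theorem map_neg' (f : Matrix J' J R) : (-f).map φ = -f.map φ := by ext; simp

theorem map_smul' (c : R) (f : Matrix J' J R) : (c • f).map φ = φ c • f.map φ := by ext; simp

theorem map_kron {A A' B B' : Type*} (f : Matrix A A' R) (g : Matrix B B' R) :
    (f ⊗ₖ g).map φ = f.map φ ⊗ₖ g.map φ := by
  ext i j; simp [Matrix.kroneckerMap_apply]

theorem map_tensor (K : Cx R J) (L : Cx R J') :
    (K.tensor L).map φ = (K.map φ).tensor (L.map φ) := by
  have h : ((K.tensor L).map φ).d = ((K.map φ).tensor (L.map φ)).d := by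
    rw [map_d, tensor_d, tensor_d, map_add', map_kron, map_kron, map_e, one_map, map_d, map_d]
  show Cx.mk _ _ _ _ = Cx.mk _ _ _ _
  congr 1

theorem map_dual (K : Cx R J) : (K.dual).map φ = (K.map φ).dual := by
  have h : ((K.dual).map φ).d = ((K.map φ).dual).d := by
    rw [map_d, dual_d, dual_d, map_neg', map_e, map_d, ← Matrix.map_mul]; rfl
  show Cx.mk _ _ _ _ = Cx.mk _ _ _ _
  congr 1

theorem map_Hom (K : Cx R J) (L : Cx R J') : (Hom K L).map φ = Hom (K.map φ) (L.map φ) := by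
  rw [Hom, map_tensor, map_dual]; rfl

/-- If all entries of the differentials are killed by `φ`, boundaries are killed by `φ`. -/
theorem Bd.map_eq_zero {f : Matrix J' J R} (hf : Bd K L n f) (hK : K.d.map φ = 0)
    (hL : L.d.map φ = 0) : f.map φ = 0 := by
  obtain ⟨s, hs, h⟩ := hf.map φ
  rw [h, map_d, map_d, hK, hL]
  simp

theorem tensor_d_map_eq_zero (hK : K.d.map φ = 0) (hL : L.d.map φ = 0) :
    (K.tensor L).d.map φ = 0 := by
  rw [tensor_d, map_add', map_kron, map_kron, hK, hL, zero_kron, kron_zero, add_zero]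

theorem dual_d_map_eq_zero (hK : K.d.map φ = 0) : K.dual.d.map φ = 0 := by
  rw [dual_d, map_neg']
  have : (K.e * K.d)ᵀ.map φ = ((K.e * K.d).map φ)ᵀ := rfl
  rw [this, Matrix.map_mul, hK]
  simp

theorem Hom_d_map_eq_zero (hK : K.d.map φ = 0) (hL : L.d.map φ = 0) :
    (Hom K L).d.map φ = 0 := tensor_d_map_eq_zero φ hL (dual_d_map_eq_zero φ hK)

end map

/-! ### pure tensors -/

/-- the vector `x ⊗ y` -/
def tv {A B : Type*} (x : A → R) (y : B → R) : A × B → R := fun i => x i.1 * y i.2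

theorem kron_mulVec_tv {A A' B B' : Type*} [Fintype A] [Fintype B] (f : Matrix A' A R)
    (g : Matrix B' B R) (x : A → R) (y : B → R) :
    (f ⊗ₖ g) *ᵥ tv x y = tv (f *ᵥ x) (g *ᵥ y) := by
  ext ⟨i, j⟩
  simp only [Matrix.mulVec, dotProduct, Fintype.sum_prod_type, Matrix.kroneckerMap_apply, tv]
  rw [Finset.sum_mul_sum]
  refine Finset.sum_congr rfl fun a _ => Finset.sum_congr rfl fun b _ => by ring

theorem tv_add {A B : Type*} (x : A → R) (y z : B → R) : tv x (y + z) = tv x y + tv x z := by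
  ext i; simp [tv, mul_add]

theorem add_tv {A B : Type*} (x y : A → R) (z : B → R) : tv (x + y) z = tv x z + tv y z := by
  ext i; simp [tv, add_mul]

theorem tv_smul {A B : Type*} (c : R) (x : A → R) (y : B → R) : tv x (c • y) = c • tv x y := by
  ext i; simp [tv, mul_left_comm]

theorem smul_tv {A B : Type*} (c : R) (x : A → R) (y : B → R) : tv (c • x) y = c • tv x y := by
  ext i; simp [tv, mul_assoc]

theorem tv_neg {A B : Type*} (x : A → R) (y : B → R) : tv x (-y) = -tv x y := by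
  ext i; simp [tv]

theorem neg_tv {A B : Type*} (x : A → R) (y : B → R) : tv (-x) y = -tv x y := by
  ext i; simp [tv]

theorem tv_zero {A B : Type*} (x : A → R) : tv x (0 : B → R) = 0 := by
  ext i; simp [tv]

theorem zero_tv {A B : Type*} (y : B → R) : tv (0 : A → R) y = 0 := by
  ext i; simp [tv]

theorem Vh.tv {x : J → R} {y : J' → R} (hx : Vh K n x) (hy : Vh L m y) :
    Vh (K.tensor L) (n + m) (tv x y) := by
  rintro ⟨i, j⟩ h
  show x i * y j = 0
  by_cases h1 : K.deg i = n
  · rw [hy j (by intro h2; apply h; rw [tensor_deg, h1, h2]), mul_zero]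
  · rw [hx i h1, zero_mul]

theorem Vh.mulVec {f : Matrix J' J R} {x : J → R} (hf : IsHmg K L n f) (hx : Vh K m x) :
    Vh L (m + n) (f *ᵥ x) := by
  intro i h
  rw [Matrix.mulVec, dotProduct]
  refine Finset.sum_eq_zero fun j _ => ?_
  by_cases h1 : K.deg j = m
  · rw [hf i j (by rw [h1]; exact h), zero_mul]
  · rw [hx j h1, mul_zero]

end Cx

end LicciCx
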