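import Mathlib
import Pool.Agent.Work.MP_a98e4e_ag.KoszulTop
import Pool.Agent.Work.MP_a98e4e_ag.Acyclic

/-!
Koszul depth along a linear form `g : M → R` on a finite free module, all of whose relevant values
are powers of the members of a weakly regular list: `Dep g k N` says that the Koszul cochain
complex with values in `N` is exact in degrees `< k`.
-/

namespace Pool.Agent.Licci

open RingTheory.Sequence Pointwise

universe u v w

variable {R : Type u} [CommRing R] {M : Type w} [AddCommGroup M] [Module R M]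

/-- vanishing of the Koszul cohomology in degrees `< k` -/
def Dep (g : M →ₗ[R] R) (k : ℕ) (N : Type v) [AddCommGroup N] [Module R N] : Prop :=
  ∀ i < k, ∀ ω : M [⋀^Fin i]→ₗ[R] N, wedge g i ω = 0 → IsCob g i ω

/-- the family `0, Λ⁰, Λ¹, …` -/
def koszFam (M : Type w) [AddCommGroup M] [Module R M] (N : Type v) [AddCommGroup N]
    [Module R N] : ℕ → ModuleCat.{max v w} R
  | 0 => ModuleCat.of R PUnit
  | i + 1 => ModuleCat.of R (M [⋀^Fin i]→ₗ[R] N)

/-- the differentials of `koszFam` -/
def koszD (g : M →ₗ[R] R) (N : Type v) [AddCommGroup N] [Module R N] :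
    ∀ i, (koszFam (R := R) M N i) →ₗ[R] (koszFam (R := R) M N (i + 1))
  | 0 => 0
  | i + 1 => (wedge g i : (M [⋀^Fin i]→ₗ[R] N) →ₗ[R] (M [⋀^Fin (i + 1)]→ₗ[R] N))

theorem Dep.of_reg [Module.Free R M] [Module.Finite R M] {N : Type v} [AddCommGroup N]
    [Module R N] (g : M →ₗ[R] R) (rs : List R) (hreg : IsWeaklyRegular N rs)
    (hmem : ∀ r ∈ rs, ∃ (n : ℕ) (x : M), g x = r ^ n) : Dep g rs.length N := by
  have key := LicciCodimFour.acyclic rs (fun i => koszFam (R := R) M N i) (koszD g N)
    (by
      intro i x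
      cases i with
      | zero => exact map_zero _
      | succ i => exact wedge_wedge_self g i x)
    (by show Subsingleton PUnit; infer_instance)
    (by
      intro i
      cases i with
      | zero => exact isWeaklyRegular_of_subsingleton rs (PUnit)
      | succ i => exact reg_alt M hreg i)
    (by
      intro r hr i _ z hz
      obtain ⟨n, x, hx⟩ := hmem r hr
      refine ⟨n, ?_⟩
      cases i with
      | zero =>
        refine ⟨0, ?_⟩
        rw [map_zero]
        have h1 : wedge g 0 (z : M [⋀^Fin 0]→ₗ[R] N) = 0 := hz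
        have h2 := contr_wedge_zero g x (z : M [⋀^Fin 0]→ₗ[R] N)
        rw [h1, map_zero, hx] at h2
        exact h2
      | succ i =>
        have h1 : wedge g (i + 1) (z : M [⋀^Fin (i + 1)]→ₗ[R] N) = 0 := hz
        refine ⟨contr x i (z : M [⋀^Fin (i + 1)]→ₗ[R] N), ?_⟩
        have h2 := contr_wedge g x i (z : M [⋀^Fin (i + 1)]→ₗ[R] N)
        rw [h1, map_zero, hx] at h2
        show wedge g i (contr x i (z : M [⋀^Fin (i + 1)]→ₗ[R] N)) = _
        exact (sub_eq_zero.1 h2.symm).symm)
  intro i hi ω hω
  obtain ⟨y, hy⟩ := key i hi ω hω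
  cases i with
  | zero =>
    show ω = 0
    rw [← hy]
    rfl
  | succ i => exact ⟨y, hy⟩

theorem Dep.of_equiv {N N' : Type*} [AddCommGroup N] [Module R N] [AddCommGroup N'] [Module R N']
    (g : M →ₗ[R] R) (e : N ≃ₗ[R] N') {k : ℕ} (h : Dep g k N) : Dep g k N' := by
  intro i hi ω hω
  have h1 : wedge g i (e.symm.toLinearMap.compAlternatingMap ω) = 0 := by
    rw [wedge_compRight, hω]
    ext v; simp
  have h2 := h i hi _ h1
  cases i with
  | zero =>
    have h3 : e.symm.toLinearMap.compAlternatingMap ω = 0 := h2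
    show ω = 0
    ext v
    have := congrArg (fun f => e (f v)) h3
    simpa using this
  | succ i =>
    obtain ⟨η, hη⟩ := h2
    refine ⟨e.toLinearMap.compAlternatingMap η, ?_⟩
    rw [wedge_compRight, hη]
    ext v; simp

/-- depth of a quotient -/
theorem Dep.quot [Module.Free R M] [Module.Finite R M] {A B C : Type v} [AddCommGroup A]
    [Module R A] [AddCommGroup B] [Module R B] [AddCommGroup C] [Module R C] (g : M →ₗ[R] R)
    (f : A →ₗ[R] B) (q : B →ₗ[R] C) (hf : Function.Injective f) (hq : Function.Surjective q)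
    (hfq : Function.Exact f q) {k : ℕ} (hA : Dep g (k + 1) A) (hB : Dep g k B) : Dep g k C := by
  intro i hi ω hω
  obtain ⟨η, rfl⟩ := exists_lift_alt q hq i ω
  rw [wedge_compRight] at hω
  have hv : ∀ v, wedge g i η v ∈ LinearMap.range f := by
    intro v
    have := congrArg (fun f => f v) hω
    obtain ⟨y, hy⟩ := (hfq _).1 (show q (wedge g i η v) = 0 by simpa using this)
    exact ⟨y, hy⟩
  let e := LinearEquiv.ofInjective f hf
  let θ : M [⋀^Fin (i + 1)]→ₗ[R] A :=
    e.symm.toLinearMap.compAlternatingMap ((wedge g i η).codRestrict _ hv)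
  have hθ : f.compAlternatingMap θ = wedge g i η := by
    ext v
    have h1 : f (e.symm ((wedge g i η).codRestrict _ hv v)) =
        ((e (e.symm ((wedge g i η).codRestrict _ hv v)) : LinearMap.range f) : B) := rfl
    simp only [LinearMap.compAlternatingMap_apply, θ, LinearEquiv.coe_coe]
    rw [h1, LinearEquiv.apply_symm_apply]
    rfl
  have hwθ : wedge g (i + 1) θ = 0 := by
    have h1 : f.compAlternatingMap (wedge g (i + 1) θ) = 0 := by
      rw [← wedge_compRight, hθ, wedge_wedge_self]
    ext v
    apply hf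
    have := congrArg (fun f => f v) h1
    simpa using this
  obtain ⟨ζ, hζ⟩ := hA (i + 1) (by omega) θ hwθ
  have h2 : wedge g i (η - f.compAlternatingMap ζ) = 0 := by
    rw [map_sub, wedge_compRight, hζ, hθ, sub_self]
  have h3 := hB i hi _ h2
  have hqf : ∀ x, q (f x) = 0 := fun x => (hfq _).2 ⟨x, rfl⟩
  cases i with
  | zero =>
    have h4 : η - f.compAlternatingMap ζ = 0 := h3
    show q.compAlternatingMap η = 0
    ext v
    have := congrArg (fun f => q (f v)) h4
    simpa [hqf] using this
  | succ i =>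
    obtain ⟨ξ, hξ⟩ := h3
    refine ⟨q.compAlternatingMap ξ, ?_⟩
    rw [wedge_compRight, hξ]
    ext v
    simp [hqf]

/-- The cokernel of the last map of a complex `0 → C 1 → … → C (b + 1)` that is exact before the
last spot. -/
theorem Dep.coker [Module.Free R M] [Module.Finite R M] (g : M →ₗ[R] R) (C : ℕ → Type v)
    [∀ i, AddCommGroup (C i)] [∀ i, Module R (C i)] (d : ∀ i, C i →ₗ[R] C (i + 1))
    (hdd : ∀ i x, d (i + 1) (d i x) = 0) (h0 : Subsingleton (C 0)) {k : ℕ}
    (hC : ∀ i, Dep g k (C i)) : ∀ b : ℕ,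
      (∀ i < b, ∀ z, d (i + 1) z = 0 → ∃ y, d i y = z) → b ≤ k →
      Dep g (k - b) (C (b + 1) ⧸ LinearMap.range (d b)) := by
  intro b
  induction b with
  | zero =>
    intro _ _
    have hr : LinearMap.range (d 0) = ⊥ := by
      rw [LinearMap.range_eq_bot]
      ext x
      rw [Subsingleton.elim x 0, map_zero, map_zero]
    exact Dep.of_equiv g (Submodule.quotEquivOfEqBot _ hr).symm (hC 1)
  | succ b ih =>
    intro hex hb
    have h1 := ih (fun i hi => hex i (by omega)) (by omega)
    let f : (C (b + 1) ⧸ LinearMap.range (d b)) →ₗ[R] C (b + 2) :=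
      (LinearMap.range (d b)).liftQ (d (b + 1)) (by
        rintro _ ⟨y, rfl⟩
        exact hdd b y)
    have hf : Function.Injective f := by
      rw [← LinearMap.ker_eq_bot, LinearMap.ker_eq_bot']
      intro x hx
      obtain ⟨x, rfl⟩ := Submodule.Quotient.mk_surjective _ x
      have hx' : d (b + 1) x = 0 := hx
      obtain ⟨y, hy⟩ := hex b (by omega) x hx'
      rw [Submodule.Quotient.mk_eq_zero]
      exact ⟨y, hy⟩
    have hrange : LinearMap.range f = LinearMap.range (d (b + 1)) := by
      ext z
      constructor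
      · rintro ⟨x, rfl⟩
        obtain ⟨x, rfl⟩ := Submodule.Quotient.mk_surjective _ x
        exact ⟨x, rfl⟩
      · rintro ⟨x, rfl⟩
        exact ⟨Submodule.Quotient.mk x, rfl⟩
    have h2 : Dep g ((k - (b + 1)) + 1) (C (b + 1) ⧸ LinearMap.range (d b)) := by
      have : k - (b + 1) + 1 = k - b := by omega
      rw [this]; exact h1
    refine Dep.quot g f (LinearMap.range (d (b + 1))).mkQ hf (Submodule.mkQ_surjective _) ?_ h2 ?_
    · intro z
      rw [Submodule.mkQ_apply, Submodule.Quotient.mk_eq_zero, ← hrange]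
      rfl
    · intro i hi ω hω
      exact hC _ i (by omega) ω hω

end Pool.Agent.Licci
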