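import Mathlib
import Pool.Agent.Work.MP_a98e4e_ag.Cx.Dep

/-!
Matrix complexes: index type `J`, degree `deg : J → ℤ`, differential `d : Matrix J J R` of degree
`+1`, `d * d = 0`. If the complex is contractible outside degree `0` up to powers of the members of
a weakly regular sequence `a : Fin L → R` (`UE`), and all degrees are `≥ -b`, then the cokernel of
`d` in degree `0` is torsion free for `b < L` (`T0`, `T0'`) and sections over the complement of
`V(a)` extend for `b + 1 < L` (`T1`, `T1'`).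
-/

namespace Pool.Agent.Licci

open RingTheory.Sequence Pointwise Matrix

universe u v w

/-- vectors supported in degree `n` -/
def Supp {J S : Type*} [Zero S] (deg : J → ℤ) (n : ℤ) (v : J → S) : Prop :=
  ∀ j, v j ≠ 0 → deg j = n

/-- up to powers of `a` the complex is contractible outside degree `0` -/
def UE {R : Type u} [CommRing R] {J : Type w} [Fintype J] [DecidableEq J] (deg : J → ℤ)
    (d : Matrix J J R) (a : R) : Prop :=
  ∃ (N : ℕ) (h : Matrix J J R), (∀ i j, h i j ≠ 0 → deg i + 1 = deg j) ∧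
    ∀ i j, (a ^ N • (1 : Matrix J J R) - (d * h + h * d)) i j ≠ 0 → deg i = 0 ∧ deg j = 0

section

variable {R : Type u} [CommRing R] {J : Type w} [Fintype J] {deg : J → ℤ}

theorem Supp.mulVec {S : Type*} [CommRing S] {d : Matrix J J S} {k : ℤ}
    (hd : ∀ i j, d i j ≠ 0 → deg i = deg j + k) {n : ℤ} {v : J → S} (hv : Supp deg n v) :
    Supp deg (n + k) (d *ᵥ v) := by
  intro i hi
  rw [Matrix.mulVec, dotProduct] at hi
  obtain ⟨j, -, hj⟩ := Finset.exists_ne_zero_of_sum_ne_zero hi
  rw [hd i j (left_ne_zero_of_mul hj), hv j (right_ne_zero_of_mul hj)]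

/-- the part of degree `n` -/
def part {S : Type*} [Zero S] (deg : J → ℤ) (n : ℤ) (v : J → S) : J → S :=
  fun j => if deg j = n then v j else 0

theorem supp_part {S : Type*} [Zero S] (n : ℤ) (v : J → S) : Supp deg n (part deg n v) := by
  intro j hj
  by_contra h
  exact hj (by simp [part, h])

theorem part_eq {S : Type*} [Zero S] {n : ℤ} {v : J → S} (hv : Supp deg n v) :
    part deg n v = v := by
  funext j
  by_cases h : deg j = n
  · simp [part, h]
  · simp only [part, h, if_false]
    by_contra h'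
    exact h (hv j (Ne.symm h'))

theorem part_mulVec {S : Type*} [CommRing S] {d : Matrix J J S} {k : ℤ}
    (hd : ∀ i j, d i j ≠ 0 → deg i = deg j + k) (n : ℤ) (v : J → S) :
    part deg (n + k) (d *ᵥ v) = d *ᵥ part deg n v := by
  funext i
  by_cases h : deg i = n + k
  · simp only [part, h, if_true, Matrix.mulVec, dotProduct]
    refine Finset.sum_congr rfl fun j _ => ?_
    by_cases h' : d i j = 0
    · simp [h']
    · have := hd i j h'
      rw [if_pos (by omega)]
  · simp only [part, h, if_false, Matrix.mulVec, dotProduct]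
    symm
    refine Finset.sum_eq_zero fun j _ => ?_
    by_cases h' : d i j = 0
    · simp [h']
    · have := hd i j h'
      rw [if_neg (by omega), mul_zero]

/-- a solution of `d w = v` with `v` of degree `n + 1` may be taken of degree `n` -/
theorem exists_supp {S : Type*} [CommRing S] {d : Matrix J J S}
    (hd : ∀ i j, d i j ≠ 0 → deg i = deg j + 1) {n : ℤ} {v : J → S} (hv : Supp deg n v)
    {w : J → S} (hw : v = d *ᵥ w) : ∃ w', Supp deg (n - 1) w' ∧ v = d *ᵥ w' := by
  refine ⟨part deg (n - 1) w, supp_part _ _, ?_⟩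
  rw [← part_mulVec hd, ← hw, sub_add_cancel, part_eq hv]

/-- extension by zero -/
def extz {S : Type*} [CommRing S] (deg : J → ℤ) (n : ℤ) : ({j // deg j = n} → S) →ₗ[S] (J → S) where
  toFun v := fun j => if h : deg j = n then v ⟨j, h⟩ else 0
  map_add' v w := by
    funext j
    by_cases h : deg j = n <;> simp [h]
  map_smul' c v := by
    funext j
    by_cases h : deg j = n <;> simp [h]

/-- restriction -/
def resz {S : Type*} [CommRing S] (deg : J → ℤ) (n : ℤ) : (J → S) →ₗ[S] ({j // deg j = n} → S) where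
  toFun v := fun j => v j.1
  map_add' _ _ := rfl
  map_smul' _ _ := rfl

theorem resz_extz {S : Type*} [CommRing S] (n : ℤ) (v : {j // deg j = n} → S) :
    resz deg n (extz deg n v) = v := by
  funext j
  simp [resz, extz, j.2]

theorem extz_resz {S : Type*} [CommRing S] (n : ℤ) (v : J → S) :
    extz deg n (resz deg n v) = part deg n v := by
  funext j
  by_cases h : deg j = n <;> simp [resz, extz, part, h]

theorem supp_extz {S : Type*} [CommRing S] (n : ℤ) (v : {j // deg j = n} → S) :
    Supp deg n (extz deg n v) := by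
  intro j hj
  by_contra h
  exact hj (by simp [extz, h])

/-- the differential from degree `n` to degree `m` -/
def dnm (deg : J → ℤ) (d : Matrix J J R) (n m : ℤ) :
    ({j // deg j = n} → R) →ₗ[R] ({j // deg j = m} → R) :=
  resz deg m ∘ₗ d.mulVecLin ∘ₗ extz deg n

theorem extz_dnm {d : Matrix J J R} (hd : ∀ i j, d i j ≠ 0 → deg i = deg j + 1) {n m : ℤ}
    (hm : m = n + 1) (v : {j // deg j = n} → R) :
    extz deg m (dnm deg d n m v) = d *ᵥ extz deg n v := by
  subst hm
  simp only [dnm, LinearMap.comp_apply, extz_resz, Matrix.mulVecLin_apply]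
  exact part_eq ((supp_extz n v).mulVec hd)

theorem extz_injective {S : Type*} [CommRing S] (n : ℤ) :
    Function.Injective (extz (S := S) deg n) :=
  Function.LeftInverse.injective (resz_extz n)

theorem dnm_dnm {d : Matrix J J R} (hd : ∀ i j, d i j ≠ 0 → deg i = deg j + 1) (hdd : d * d = 0)
    {n m l : ℤ} (hm : m = n + 1) (hl : l = m + 1) (v : {j // deg j = n} → R) :
    dnm deg d m l (dnm deg d n m v) = 0 := by
  apply extz_injective l
  rw [extz_dnm hd hl, extz_dnm hd hm, Matrix.mulVec_mulVec, hdd, Matrix.zero_mulVec, map_zero]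

end

section

variable {R : Type u} [CommRing R] {J : Type w} [Fintype J] [DecidableEq J] {deg : J → ℤ}
  {d : Matrix J J R}

/-- contraction in degrees `≠ 0` -/
theorem UE.apply {a : R} {N : ℕ} {h : Matrix J J R}
    (hh : ∀ i j, (a ^ N • (1 : Matrix J J R) - (d * h + h * d)) i j ≠ 0 → deg i = 0 ∧ deg j = 0)
    {n : ℤ} (hn : n ≠ 0) {v : J → R} (hv : Supp deg n v) :
    a ^ N • v = d *ᵥ (h *ᵥ v) + h *ᵥ (d *ᵥ v) := by
  have h1 : (a ^ N • (1 : Matrix J J R) - (d * h + h * d)) *ᵥ v = 0 := by
    funext i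
    rw [Matrix.mulVec, dotProduct]
    refine Finset.sum_eq_zero fun j _ => ?_
    by_cases h0 : v j = 0
    · rw [h0, mul_zero]
    · by_cases h1 : (a ^ N • (1 : Matrix J J R) - (d * h + h * d)) i j = 0
      · rw [h1, zero_mul]
      · exact absurd ((hv j h0).symm.trans (hh i j h1).2) hn
  rw [Matrix.sub_mulVec, Matrix.smul_mulVec, Matrix.one_mulVec, Matrix.add_mulVec,
    sub_eq_zero] at h1
  rw [h1, Matrix.mulVec_mulVec, Matrix.mulVec_mulVec]

/-- depth of the cokernel in degree `0` -/
theorem dep_coker {L : ℕ} (a : Fin L → R) (ha : IsWeaklyRegular R (List.ofFn a))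
    (hd : ∀ i j, d i j ≠ 0 → deg i = deg j + 1) (hdd : d * d = 0) (hUE : ∀ i, UE deg d (a i))
    (b : ℕ) (hb : ∀ j, -(b : ℤ) ≤ deg j) (hbL : b ≤ L) (N : Fin L → ℕ)
    (g : (Fin L → R) →ₗ[R] R) (hg : ∀ i, g (Pi.single i 1) = a i ^ N i) :
    Dep g (L - b) (({j // deg j = ((b + 1 : ℕ) : ℤ) - 1 - b} → R) ⧸
      LinearMap.range (dnm deg d ((b : ℤ) - 1 - b) (((b + 1 : ℕ) : ℤ) - 1 - b))) := by
  have hlen : (List.ofFn a).length = L := by simp
  have hempty : Subsingleton ({j // deg j = ((0 : ℕ) : ℤ) - 1 - b} → R) := by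
    have : IsEmpty {j // deg j = ((0 : ℕ) : ℤ) - 1 - b} := by
      constructor
      rintro ⟨j, hj⟩
      have := hb j
      push_cast at hj
      omega
    infer_instance
  have hst : ∀ i : ℕ, (((i + 1 : ℕ) : ℤ) - 1 - b) = ((i : ℤ) - 1 - b) + 1 := by
    intro i; push_cast; ring
  have hex : ∀ i < b, ∀ z, dnm deg d (((i + 1 : ℕ) : ℤ) - 1 - b) (((i + 1 + 1 : ℕ) : ℤ) - 1 - b) z = 0 →
      ∃ y, dnm deg d ((i : ℤ) - 1 - b) (((i + 1 : ℕ) : ℤ) - 1 - b) y = z := by
    have hreg : IsWeaklyRegular R ((List.ofFn a).take b) := by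
      have h1 := ha
      rw [← List.take_append_drop b (List.ofFn a), isWeaklyRegular_append_iff] at h1
      exact h1.1
    have hl : ((List.ofFn a).take b).length = b := by
      rw [List.length_take, hlen, min_eq_left hbL]
    have key := LicciCodimFour.acyclic ((List.ofFn a).take b)
      (fun i : ℕ => {j // deg j = (i : ℤ) - 1 - b} → R)
      (fun i : ℕ => dnm deg d ((i : ℤ) - 1 - b) (((i + 1 : ℕ) : ℤ) - 1 - b))
      (fun i x => dnm_dnm hd hdd (hst i) (hst (i + 1)) x) hempty
      (fun i => isWeaklyRegular_pi_ring hreg)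
      (by
        intro r hr i hi z hz
        rw [hl] at hi
        have hr' := List.mem_of_mem_take hr
        obtain ⟨l, rfl⟩ := (List.mem_ofFn' _ _).1 hr'
        obtain ⟨n, h, hh1, hh2⟩ := hUE l
        refine ⟨n, resz deg _ (h *ᵥ extz deg _ z), ?_⟩
        apply extz_injective
        rw [extz_dnm hd (hst i), extz_resz, map_smul,
          UE.apply hh2 (n := ((i + 1 : ℕ) : ℤ) - 1 - b) (by push_cast; omega) (supp_extz _ z),
          ← extz_dnm hd (hst (i + 1)), hz, map_zero, Matrix.mulVec_zero, add_zero]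
        congr 1
        apply part_eq
        have := (supp_extz (((i + 1 : ℕ) : ℤ) - 1 - b) z).mulVec (d := h) (k := -1)
          (fun i j hij => by have := hh1 i j hij; omega)
        have e : ((i + 1 : ℕ) : ℤ) - 1 - b + -1 = (i : ℤ) - 1 - b := by push_cast; ring
        rw [e] at this
        exact this)
    rw [hl] at key
    exact key
  have h := Dep.coker g (fun i : ℕ => {j // deg j = (i : ℤ) - 1 - b} → R)
    (fun i : ℕ => dnm deg d ((i : ℤ) - 1 - b) (((i + 1 : ℕ) : ℤ) - 1 - b))
    (fun i x => dnm_dnm hd hdd (hst i) (hst (i + 1)) x) hempty (k := L)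
    (fun i => by
      have h1 := Dep.of_reg g (List.ofFn a) (isWeaklyRegular_pi_ring (ι := {j // deg j = (i : ℤ) - 1 - b}) ha) (by
        intro r hr
        obtain ⟨l, rfl⟩ := (List.mem_ofFn' _ _).1 hr
        exact ⟨N l, _, hg l⟩)
      rwa [hlen] at h1) b hex hbL
  exact h

/-- the linear form with values `a i ^ N i` -/
def powForm {L : ℕ} (a : Fin L → R) (N : Fin L → ℕ) : (Fin L → R) →ₗ[R] R :=
  Fintype.linearCombination R (fun i => a i ^ N i)

theorem powForm_single {L : ℕ} (a : Fin L → R) (N : Fin L → ℕ) (i : Fin L) :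
    powForm a N (Pi.single i 1) = a i ^ N i := by
  simp [powForm, Fintype.linearCombination_apply, Pi.single_apply]

theorem powForm_apply {L : ℕ} (a : Fin L → R) (N : Fin L → ℕ) (x : Fin L → R) :
    powForm a N x = ∑ i, x i * a i ^ N i := by
  simp [powForm, Fintype.linearCombination_apply]

theorem part_zero_eq (b : ℕ) : (((b + 1 : ℕ) : ℤ) - 1 - b) = 0 := by push_cast; ring

/-- `(T0')`: no torsion with support in `V(a)` in the cokernel in degree `0` -/
theorem depth_zero {L : ℕ} (a : Fin L → R) (ha : IsWeaklyRegular R (List.ofFn a))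
    (hd : ∀ i j, d i j ≠ 0 → deg i = deg j + 1) (hdd : d * d = 0) (hUE : ∀ i, UE deg d (a i))
    (b : ℕ) (hb : ∀ j, -(b : ℤ) ≤ deg j) (hbL : b < L) (v : J → R) (hv : Supp deg 0 v)
    (hk : ∀ i, ∃ (N : ℕ) (w : J → R), a i ^ N • v = d *ᵥ w) :
    ∃ w, Supp deg (-1) w ∧ v = d *ᵥ w := by
  choose N w hw using hk
  have hdep := dep_coker a ha hd hdd hUE b hb hbL.le N (powForm a N) (powForm_single a N)
  have e0 := part_zero_eq b
  let v' : {j // deg j = ((b + 1 : ℕ) : ℤ) - 1 - b} → R := resz deg _ v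
  let ω : (Fin L → R) [⋀^Fin 0]→ₗ[R] (({j // deg j = ((b + 1 : ℕ) : ℤ) - 1 - b} → R) ⧸
      LinearMap.range (dnm deg d ((b : ℤ) - 1 - b) (((b + 1 : ℕ) : ℤ) - 1 - b))) :=
    AlternatingMap.constOfIsEmpty R (Fin L → R) (Fin 0) (Submodule.Quotient.mk v')
  have hkill : ∀ x, powForm a N x • (Submodule.Quotient.mk v' : ({j // deg j = ((b + 1 : ℕ) : ℤ) - 1 - b} → R) ⧸
      LinearMap.range (dnm deg d ((b : ℤ) - 1 - b) (((b + 1 : ℕ) : ℤ) - 1 - b))) = 0 := by
    intro x
    rw [powForm_apply, Finset.sum_smul]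
    refine Finset.sum_eq_zero fun i _ => ?_
    rw [mul_smul]
    have : a i ^ N i • (Submodule.Quotient.mk v' : ({j // deg j = ((b + 1 : ℕ) : ℤ) - 1 - b} → R) ⧸
      LinearMap.range (dnm deg d ((b : ℤ) - 1 - b) (((b + 1 : ℕ) : ℤ) - 1 - b))) = 0 := by
      rw [← Submodule.Quotient.mk_smul, Submodule.Quotient.mk_eq_zero]
      refine ⟨resz deg _ (w i), ?_⟩
      apply extz_injective
      rw [extz_dnm hd (by push_cast; ring), extz_resz, map_smul, extz_resz, e0, part_eq hv, hw i,
        ← part_mulVec hd]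
      have e1 : ((b : ℤ) - 1 - b) + 1 = 0 := by ring
      rw [e1, ← hw i, part_eq]
      intro j hj
      exact hv j (right_ne_zero_of_mul hj)
    rw [this, smul_zero]
  have hω : ω = 0 := hdep 0 (by omega) ω (by
    ext x
    rw [wedge_apply]
    refine Finset.sum_eq_zero fun i _ => ?_
    have : powForm a N (x i) • ω (i.removeNth x) = 0 := hkill (x i)
    rw [this, smul_zero])
  have h1 : (Submodule.Quotient.mk v' : ({j // deg j = ((b + 1 : ℕ) : ℤ) - 1 - b} → R) ⧸
      LinearMap.range (dnm deg d ((b : ℤ) - 1 - b) (((b + 1 : ℕ) : ℤ) - 1 - b))) = 0 := by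
    have := congrArg (fun f => f (fun i => i.elim0)) hω
    exact this
  rw [Submodule.Quotient.mk_eq_zero] at h1
  obtain ⟨y, hy⟩ := h1
  refine ⟨extz deg _ y, ?_, ?_⟩
  · have := supp_extz ((b : ℤ) - 1 - b) y
    have e1 : ((b : ℤ) - 1 - b) = -1 := by ring
    intro j hj
    rw [this j hj, e1]
  · have h2 := congrArg (extz deg _) hy
    rw [extz_dnm hd (by push_cast; ring), extz_resz, e0, part_eq hv] at h2
    exact h2.symm

/-- `(T0)`: the cokernel in degree `0` has no torsion -/
theorem depth_torsion {L : ℕ} (a : Fin L → R) (ha : IsWeaklyRegular R (List.ofFn a))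
    (hd : ∀ i j, d i j ≠ 0 → deg i = deg j + 1) (hdd : d * d = 0) (hUE : ∀ i, UE deg d (a i))
    (b : ℕ) (hb : ∀ j, -(b : ℤ) ≤ deg j) (hbL : b < L) (v : J → R) (hv : Supp deg 0 v)
    (s : R) (hs : s ∈ nonZeroDivisors R) (w : J → R) (hw : s • v = d *ᵥ w) :
    ∃ w, Supp deg (-1) w ∧ v = d *ᵥ w := by
  refine depth_zero a ha hd hdd hUE b hb hbL v hv fun i => ?_
  obtain ⟨N, h, hh1, hh2⟩ := hUE i
  obtain ⟨w', hw1, hw2⟩ := exists_supp hd (n := 0) (by
    intro j hj
    exact hv j (right_ne_zero_of_mul hj)) hw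
  rw [zero_sub] at hw1
  refine ⟨N, h *ᵥ v, ?_⟩
  have h1 := UE.apply hh2 (by norm_num) hw1
  have h2 : s • (a i ^ N • v) = s • (d *ᵥ (h *ᵥ v)) := by
    rw [smul_comm, hw2, ← Matrix.mulVec_smul, h1, Matrix.mulVec_add, Matrix.mulVec_mulVec _ d d, hdd,
      Matrix.zero_mulVec, zero_add, ← hw2, Matrix.mulVec_smul, Matrix.mulVec_smul]
  funext j
  have h3 := congrFun h2 j
  simp only [Pi.smul_apply, smul_eq_mul] at h3 ⊢
  exact mul_cancel_left_mem_nonZeroDivisors hs |>.1 h3

/-- `(T1)`: sections of the cokernel in degree `0` over the complement of `V(a)` extend -/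
theorem depth_extend {L : ℕ} (a : Fin L → R) (ha : IsWeaklyRegular R (List.ofFn a))
    (hd : ∀ i j, d i j ≠ 0 → deg i = deg j + 1) (hdd : d * d = 0) (hUE : ∀ i, UE deg d (a i))
    (b : ℕ) (hb : ∀ j, -(b : ℤ) ≤ deg j) (hbL : b + 1 < L) (N : Fin L → ℕ) (t : Fin L → J → R)
    (ht : ∀ i, Supp deg 0 (t i))
    (hk : ∀ i j, ∃ w : J → R, a j ^ N j • t i - a i ^ N i • t j = d *ᵥ w) :
    ∃ t₀, Supp deg 0 t₀ ∧ ∀ i, ∃ w, Supp deg (-1) w ∧ a i ^ N i • t₀ - t i = d *ᵥ w := by
  have hdep := dep_coker a ha hd hdd hUE b hb (by omega) N (powForm a N) (powForm_single a N)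
  have e0 := part_zero_eq b
  have e1 : ((b : ℤ) - 1 - b) = -1 := by ring
  let G := (({j // deg j = ((b + 1 : ℕ) : ℤ) - 1 - b} → R) ⧸
      LinearMap.range (dnm deg d ((b : ℤ) - 1 - b) (((b + 1 : ℕ) : ℤ) - 1 - b)))
  let τ : Fin L → G := fun i => Submodule.Quotient.mk (resz deg _ (t i))
  have hτ : ∀ i j, a j ^ N j • τ i = a i ^ N i • τ j := by
    intro i j
    rw [← sub_eq_zero]
    show (Submodule.Quotient.mk (a j ^ N j • resz deg _ (t i) - a i ^ N i • resz deg _ (t j)) : G) = 0
    rw [Submodule.Quotient.mk_eq_zero]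
    obtain ⟨w, hw⟩ := hk i j
    refine ⟨resz deg _ w, ?_⟩
    apply extz_injective
    have hs : Supp deg 0 (a j ^ N j • t i - a i ^ N i • t j) := by
      intro l hl
      by_contra h0
      apply hl
      have h1 : t i l = 0 := by
        by_contra h; exact h0 (ht i l h)
      have h2 : t j l = 0 := by
        by_contra h; exact h0 (ht j l h)
      simp [h1, h2]
    rw [extz_dnm hd (by push_cast; ring), extz_resz, ← map_smul, ← map_smul, ← map_sub, extz_resz,
      e0, part_eq hs, ← part_mulVec hd, ← hw]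
    have e1 : ((b : ℤ) - 1 - b) + 1 = 0 := by ring
    rw [e1, part_eq hs]
  let f : (Fin L → R) →ₗ[R] G := Fintype.linearCombination R τ
  have hf : ∀ x, f x = ∑ i, x i • τ i := fun x => Fintype.linearCombination_apply _ _ _
  let ω : (Fin L → R) [⋀^Fin 1]→ₗ[R] G := AlternatingMap.ofSubsingleton R (Fin L → R) G (0 : Fin 1) f
  have hsym : ∀ x y, powForm a N x • f y = powForm a N y • f x := by
    intro x y
    rw [powForm_apply, powForm_apply, hf, hf, Finset.sum_smul, Finset.sum_smul]
    simp only [Finset.smul_sum]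
    rw [Finset.sum_comm]
    refine Finset.sum_congr rfl fun i _ => Finset.sum_congr rfl fun j _ => ?_
    rw [smul_smul, smul_smul]
    have : (x j * a j ^ N j * y i) • τ i = (x j * y i) • (a j ^ N j • τ i) := by
      rw [smul_smul]; congr 1; ring
    rw [this, hτ i j, smul_smul]
    congr 1; ring
  obtain ⟨η, hη⟩ := hdep 1 (by omega) ω (by
    ext x
    rw [wedge_apply]
    rw [Fin.sum_univ_succ, Fin.sum_univ_succ, Finset.univ_eq_empty, Finset.sum_empty, add_zero]
    have h0 : ω (Fin.removeNth 0 x) = f (x 1) := rfl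
    have h1 : ω (Fin.removeNth (Fin.succ 0) x) = f (x 0) := rfl
    rw [h0, h1]
    have h2 : (Fin.succ (0 : Fin 1)) = (1 : Fin 2) := rfl
    rw [h2, hsym (x 0) (x 1)]
    simp)
  obtain ⟨z, hz⟩ := Submodule.Quotient.mk_surjective _ (η (fun i => i.elim0))
  refine ⟨extz deg _ z, ?_, ?_⟩
  · have := supp_extz (((b + 1 : ℕ) : ℤ) - 1 - b) z
    intro j hj
    rw [this j hj, e0]
  · intro i
    have h1 : wedge (powForm a N) 0 η (fun _ => Pi.single i 1) = ω (fun _ => Pi.single i 1) := by
      rw [hη]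
    rw [wedge_apply, Fin.sum_univ_succ, Finset.univ_eq_empty, Finset.sum_empty, add_zero] at h1
    simp only [Fin.val_zero, pow_zero, one_smul] at h1
    have h2 : ω (fun _ => Pi.single i 1) = τ i := by
      show f (Pi.single i 1) = τ i
      rw [hf, Finset.sum_eq_single i]
      · simp
      · intro j _ hj; simp [hj]
      · simp
    rw [h2, powForm_single] at h1
    have h3 : η (Fin.removeNth 0 (fun _ : Fin 1 => (Pi.single i 1 : Fin L → R))) =
        η (fun i => i.elim0) := by
      congr 1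
      exact Subsingleton.elim _ _
    rw [h3, ← hz] at h1
    have h4 : (Submodule.Quotient.mk (a i ^ N i • z - resz deg _ (t i)) : G) = 0 := by
      rw [Submodule.Quotient.mk_sub, Submodule.Quotient.mk_smul, h1]
      exact sub_self _
    rw [Submodule.Quotient.mk_eq_zero] at h4
    obtain ⟨y, hy⟩ := h4
    refine ⟨extz deg _ y, ?_, ?_⟩
    · have := supp_extz ((b : ℤ) - 1 - b) y
      intro j hj
      rw [this j hj, e1]
    · have h5 := congrArg (extz deg _) hy
      have e2 : part deg (((b + 1 : ℕ) : ℤ) - 1 - b) (t i) = t i := by rw [e0, part_eq (ht i)]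
      rw [extz_dnm hd (by push_cast; ring), map_sub, map_smul, extz_resz, e2] at h5
      exact h5.symm

/-- `(T1')`: a section of the cokernel in degree `0` over the fraction field which is defined over
the complement of `V(a)` is defined over `R`. -/
theorem depth_extend_frac {L : ℕ} (a : Fin L → R) (ha : IsWeaklyRegular R (List.ofFn a))
    (hd : ∀ i j, d i j ≠ 0 → deg i = deg j + 1) (hdd : d * d = 0) (hUE : ∀ i, UE deg d (a i))
    (b : ℕ) (hb : ∀ j, -(b : ℤ) ≤ deg j) (hbL : b + 1 < L) {K : Type*} [Field K] [IsDomain R]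
    [Algebra R K] [IsFractionRing R K] (x : J → K) (hx : Supp deg 0 x)
    (hk : ∀ i, ∃ (N : ℕ) (t : J → R) (u : J → K),
      algebraMap R K (a i) ^ N • x = (fun j => algebraMap R K (t j)) + d.map (algebraMap R K) *ᵥ u) :
    ∃ (t : J → R) (u : J → K), Supp deg 0 t ∧ Supp deg (-1) u ∧
      x = (fun j => algebraMap R K (t j)) + d.map (algebraMap R K) *ᵥ u := by
  choose N t' u' htu' using hk
  have hinj : Function.Injective (algebraMap R K) := IsFractionRing.injective R K
  have hdK : ∀ i j, (d.map (algebraMap R K)) i j ≠ 0 → deg i = deg j + 1 := by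
    intro i j hij
    refine hd i j fun h => hij ?_
    rw [Matrix.map_apply, h, map_zero]
  -- homogeneous parts
  let t : Fin L → J → R := fun i => part deg 0 (t' i)
  let u : Fin L → J → K := fun i => part deg (-1) (u' i)
  have htu : ∀ i, algebraMap R K (a i) ^ N i • x =
      (fun j => algebraMap R K (t i j)) + d.map (algebraMap R K) *ᵥ u i := by
    intro i
    have h1 := congrArg (part deg 0) (htu' i)
    have hs : Supp deg 0 (algebraMap R K (a i) ^ N i • x) := by
      intro j hj
      exact hx j (right_ne_zero_of_mul hj)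
    rw [part_eq hs] at h1
    rw [h1]
    have h2 := part_mulVec hdK (-1) (u' i)
    rw [show (-1 : ℤ) + 1 = 0 by norm_num] at h2
    show _ = (fun j => algebraMap R K (part deg 0 (t' i) j)) + d.map (algebraMap R K) *ᵥ part deg (-1) (u' i)
    rw [← h2]
    funext j
    by_cases h : deg j = 0
    · simp [part, h]
    · simp [part, h]
  have hL : 0 < L := by omega
  have hmap : ∀ w : J → R, (fun j => algebraMap R K ((d *ᵥ w) j)) =
      d.map (algebraMap R K) *ᵥ (fun j => algebraMap R K (w j)) := by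
    intro w
    funext j
    exact RingHom.map_mulVec (algebraMap R K) d w j
  obtain ⟨t₀, ht₀, h₀⟩ := depth_extend a ha hd hdd hUE b hb hbL N t (fun i => supp_part _ _) (by
    intro i j
    -- clear the denominators of `a i ^ N i • u j - a j ^ N j • u i`
    obtain ⟨s, hs⟩ := IsLocalization.exist_integer_multiples_of_finite (nonZeroDivisors R)
      (algebraMap R K (a i) ^ N i • u j - algebraMap R K (a j) ^ N j • u i)
    choose w hw using hs
    have hw' : (fun l => algebraMap R K (w l)) =
        algebraMap R K s • (algebraMap R K (a i) ^ N i • u j - algebraMap R K (a j) ^ N j • u i) := by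
      funext l
      have := hw l
      rw [Algebra.smul_def] at this
      exact this
    have hS : Supp deg 0 (a j ^ N j • t i - a i ^ N i • t j) := by
      intro l hl
      by_contra h0
      apply hl
      have h1 : t i l = 0 := by
        by_contra h; exact h0 (supp_part _ _ l h)
      have h2 : t j l = 0 := by
        by_contra h; exact h0 (supp_part _ _ l h)
      simp [h1, h2]
    obtain ⟨w1, -, hw1⟩ := depth_torsion a ha hd hdd hUE b hb (by omega) _ hS s s.2 w (by
      funext l
      apply hinj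
      have e1 : algebraMap R K ((d *ᵥ w) l) =
          (d.map (algebraMap R K) *ᵥ (fun j => algebraMap R K (w j))) l := congrFun (hmap w) l
      rw [e1, hw']
      have e2 := congrFun (htu i) l
      have e3 := congrFun (htu j) l
      simp only [Pi.smul_apply, Pi.add_apply, smul_eq_mul] at e2 e3
      simp only [Pi.smul_apply, Pi.sub_apply, smul_eq_mul, map_mul, map_sub, map_pow]
      rw [Matrix.mulVec_smul, Matrix.mulVec_sub, Matrix.mulVec_smul, Matrix.mulVec_smul]
      simp only [Pi.smul_apply, Pi.sub_apply, smul_eq_mul]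
      congr 1
      have e4 : algebraMap R K (t i l) = algebraMap R K (a i) ^ N i * x l -
          (d.map (algebraMap R K) *ᵥ u i) l := by rw [e2]; ring
      have e5 : algebraMap R K (t j l) = algebraMap R K (a j) ^ N j * x l -
          (d.map (algebraMap R K) *ᵥ u j) l := by rw [e3]; ring
      rw [e4, e5]
      ring)
    exact ⟨w1, hw1⟩)
  obtain ⟨w, hwS, hw⟩ := h₀ ⟨0, hL⟩
  have ha0 : algebraMap R K (a ⟨0, hL⟩) ≠ 0 := by
    intro h
    have h1 : a ⟨0, hL⟩ = 0 := hinj (by rw [h, map_zero])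
    obtain ⟨L', rfl⟩ : ∃ L', L = L' + 1 := ⟨L - 1, by omega⟩
    rw [List.ofFn_succ, isWeaklyRegular_cons_iff] at ha
    have h2 : IsSMulRegular R (a 0) := ha.1
    have h3 : a (0 : Fin (L' + 1)) = 0 := h1
    rw [h3] at h2
    have := h2 (show (0 : R) • (1 : R) = (0 : R) • (0 : R) by simp)
    exact one_ne_zero this
  refine ⟨t₀, (algebraMap R K (a ⟨0, hL⟩) ^ N ⟨0, hL⟩)⁻¹ •
    (u ⟨0, hL⟩ - fun j => algebraMap R K (w j)), ht₀, ?_, ?_⟩
  · intro j hj
    have h1 := right_ne_zero_of_mul hj
    by_contra h0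
    apply h1
    have h2 : u ⟨0, hL⟩ j = 0 := by
      by_contra h; exact h0 (supp_part _ _ j h)
    have h3 : w j = 0 := by
      by_contra h; exact h0 (hwS j h)
    simp [h2, h3]
  · have hA : algebraMap R K (a ⟨0, hL⟩) ^ N ⟨0, hL⟩ ≠ 0 := pow_ne_zero _ ha0
    rw [Matrix.mulVec_smul, Matrix.mulVec_sub, ← hmap, ← hw]
    funext l
    have e2 := congrFun (htu ⟨0, hL⟩) l
    simp only [Pi.smul_apply, Pi.add_apply, smul_eq_mul] at e2
    simp only [Pi.smul_apply, Pi.sub_apply, Pi.add_apply, smul_eq_mul, map_sub, map_mul, map_pow]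
    have e4 : (d.map (algebraMap R K) *ᵥ u ⟨0, hL⟩) l =
        algebraMap R K (a ⟨0, hL⟩) ^ N ⟨0, hL⟩ * x l - algebraMap R K (t ⟨0, hL⟩ l) := by
      rw [e2]; ring
    rw [e4]
    field_simp
    ring

end

end Pool.Agent.Licci
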