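import Pool.Agent.Work.MP_a98e4e_ag.Cx.Maps

/-!
# Reading off the closed fibre

`X = (C* | B | C)` with zero differential, `X' = X + k` with `d 1 = eps`, `inc : X' → G` of degree
one, bijective in the top degree and onto in degree one; `Dh : X ⊗ X → G`, `al : G → Hom X X`;
`De : (W → k) ⊗ X'' → G` with `De (1, x) = inc x` and `De ≃ Dh (A ⊗ π)`, `A 1 = -eps`.

Output: `eps ≠ 0`; `D (eps, z) = 0` implies `z ∈ k eps` for `z` of degree one; every `D v`, `v` of
positive degree, is `D (eps, z)`.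
-/

set_option autoImplicit false
set_option linter.unusedSectionVars false

open Matrix Kronecker

namespace LicciCx

namespace Cx

/-- the vector `(x, 0)` -/
def il {R : Type*} [CommRing R] {J : Type*} (x : J → R) : J ⊕ Unit → R := Sum.elim x 0

/-- the last basis vector -/
def ir (R : Type*) [CommRing R] (J : Type*) : J ⊕ Unit → R := Sum.elim 0 1

/-- the projection `(x, t) ↦ x` -/
def prj (R : Type*) [CommRing R] (J : Type*) [DecidableEq J] : Matrix J (J ⊕ Unit) R :=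
  Matrix.fromCols (1 : Matrix J J R) (0 : Matrix J Unit R)

theorem prj_il {R : Type*} [CommRing R] {J : Type*} [DecidableEq J] [Fintype J] (z : J → R) :
    prj R J *ᵥ il z = z := by
  ext i
  simp [prj, Matrix.fromCols, Matrix.mulVec, dotProduct, il, Matrix.one_apply]

/-- The closed fibre data. -/
structure ReadData {k : Type*} [Field k] {J I JG : Type*} [Fintype J] [DecidableEq J] [Fintype I]
    [DecidableEq I] [Fintype JG] [DecidableEq JG] (X : Cx k J) (X' X'' : Cx k (J ⊕ Unit))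
    (V : Cx k (I ⊕ Unit)) (G : Cx k JG) (eps : J → k) (inc : Matrix JG (J ⊕ Unit) k)
    (Dh : Matrix JG (J × J) k) (al : Matrix (J × J) JG k) (be : Matrix JG (J × J) k)
    (ga : Matrix JG JG k) (De : Matrix JG ((I ⊕ Unit) × (J ⊕ Unit)) k)
    (A : Matrix J (I ⊕ Unit) k) (c : k) : Prop where
  X_d : X.d = 0
  X'_deg : X'.deg = Sum.elim X.deg (fun _ => 0)
  X'_d : X'.d = Matrix.fromBlocks 0 (Matrix.of fun i _ => eps i) 0 0
  X''_d : ∀ z, (∀ j, X.deg j < 0 → z j = 0) → X''.d *ᵥ il z = 0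
  V_d : V.d = 0
  eps_deg : Vh X 1 eps
  inc_cl : Cl X' G 1 inc
  inc_surj : ∀ n v, 1 ≤ n → Vh G n v → ∃ w, Vh X' (n - 1) w ∧ inc *ᵥ w = v
  inc_inj : ∀ w, Vh X' 1 w → inc *ᵥ w = 0 → w = 0
  Dh_cl : Cl (X.tensor X) G 0 Dh
  al_cl : Cl G (Hom X X) 0 al
  c_ne : c ≠ 0
  ga_deg : ∀ v, Vh G 2 v → ga *ᵥ v = 0
  be_al : Bd G G 0 (be * al - c • 1 - ga)
  De_inr : ∀ z, De *ᵥ tv (ir k I) (il z) = inc *ᵥ il z
  A_inr : A *ᵥ ir k I = -eps
  De_Dh : Bd (V.tensor X'') G 0 (De - Dh * (A ⊗ₖ prj k J))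

namespace ReadData

variable {k : Type*} [Field k] {J I JG : Type*} [Fintype J] [DecidableEq J] [Fintype I]
    [DecidableEq I] [Fintype JG] [DecidableEq JG] {X : Cx k J} {X' X'' : Cx k (J ⊕ Unit)}
    {V : Cx k (I ⊕ Unit)} {G : Cx k JG} {eps : J → k} {inc : Matrix JG (J ⊕ Unit) k}
    {Dh : Matrix JG (J × J) k} {al : Matrix (J × J) JG k} {be : Matrix JG (J × J) k}
    {ga : Matrix JG JG k} {De : Matrix JG ((I ⊕ Unit) × (J ⊕ Unit)) k}
    {A : Matrix J (I ⊕ Unit) k} {c : k}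

theorem X'_d_il (h : ReadData X X' X'' V G eps inc Dh al be ga De A c) (w : J ⊕ Unit → k) :
    X'.d *ᵥ w = w (Sum.inr ()) • il eps := by
  rw [h.X'_d]
  ext (i | i)
  · simp [Matrix.fromBlocks, Matrix.mulVec, dotProduct, il, mul_comm]
  · simp [Matrix.fromBlocks, Matrix.mulVec, dotProduct, il]

theorem Hom_d (h : ReadData X X' X'' V G eps inc Dh al be ga De A c) : (Hom X X).d = 0 := by
  rw [Hom, tensor_d, dual_d, h.X_d]
  simp

theorem al_d (h : ReadData X X' X'' V G eps inc Dh al be ga De A c) (y : JG → k) :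
    al *ᵥ (G.d *ᵥ y) = 0 := by
  rw [Matrix.mulVec_mulVec, ← h.al_cl.comm0, h.Hom_d, Matrix.zero_mul, Matrix.zero_mulVec]

theorem G_d_inc (h : ReadData X X' X'' V G eps inc Dh al be ga De A c) (w : J ⊕ Unit → k) :
    G.d *ᵥ (inc *ᵥ w) = -(w (Sum.inr ()) • (inc *ᵥ il eps)) := by
  rw [Matrix.mulVec_mulVec, h.inc_cl.comm1, Matrix.neg_mulVec, ← Matrix.mulVec_mulVec,
    h.X'_d_il, Matrix.mulVec_smul]

/-- The key identity `α (inc z) = -D (eps, z)`. -/
theorem al_inc (h : ReadData X X' X'' V G eps inc Dh al be ga De A c) {z : J → k}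
    (hz : ∀ j, X.deg j < 0 → z j = 0) :
    al *ᵥ (inc *ᵥ il z) = -((al * Dh) *ᵥ tv eps z) := by
  obtain ⟨s, -, hs⟩ := h.De_Dh
  have h1 : De *ᵥ tv (ir k I) (il z) - (Dh * (A ⊗ₖ prj k J)) *ᵥ tv (ir k I) (il z) =
      G.d *ᵥ (s *ᵥ tv (ir k I) (il z)) := by
    rw [← Matrix.sub_mulVec, hs, sg_zero, Int.cast_one, one_smul, Matrix.add_mulVec,
      ← Matrix.mulVec_mulVec, ← Matrix.mulVec_mulVec, tensor_d, Matrix.add_mulVec,
      kron_mulVec_tv, kron_mulVec_tv, h.V_d, Matrix.zero_mulVec, zero_tv, h.X''_d z hz, tv_zero,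
      add_zero, Matrix.mulVec_zero, add_zero]
  rw [h.De_inr, ← Matrix.mulVec_mulVec, kron_mulVec_tv, h.A_inr, prj_il, neg_tv,
    Matrix.mulVec_neg, sub_neg_eq_add] at h1
  have h3 := congrArg (fun v => al *ᵥ v) h1
  simp only [Matrix.mulVec_add] at h3
  rw [h.al_d, Matrix.mulVec_mulVec _ al Dh] at h3
  exact eq_neg_of_add_eq_zero_left h3

theorem e1 (h : ReadData X X' X'' V G eps inc Dh al be ga De A c) {z : J → k} (hz : Vh X 1 z)
    (h0 : (al * Dh) *ᵥ tv eps z = 0) : ∃ t : k, z = t • eps := by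
  have hz0 : ∀ j, X.deg j < 0 → z j = 0 := fun j hj => hz j (by omega)
  have h1 := h.al_inc hz0
  rw [h0, neg_zero] at h1
  obtain ⟨s, hs1, hs⟩ := h.be_al
  have hzX' : Vh X' 1 (il z) := by
    rintro (j | j) hj
    · rw [h.X'_deg] at hj; exact hz j hj
    · rfl
  have hv2 : Vh G 2 (inc *ᵥ il z) := Vh.mulVec h.inc_cl.hmg hzX'
  have hd : G.d *ᵥ (inc *ᵥ il z) = 0 := by
    rw [h.G_d_inc]; simp [il]
  have h2 : (be * al - c • 1 - ga) *ᵥ (inc *ᵥ il z) = G.d *ᵥ (s *ᵥ (inc *ᵥ il z)) := by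
    rw [hs, sg_zero, Int.cast_one, one_smul, Matrix.add_mulVec, ← Matrix.mulVec_mulVec,
      ← Matrix.mulVec_mulVec _ s G.d, hd, Matrix.mulVec_zero, add_zero]
  rw [Matrix.sub_mulVec, Matrix.sub_mulVec, h.ga_deg _ hv2, ← Matrix.mulVec_mulVec, h1,
    Matrix.mulVec_zero, Matrix.smul_mulVec, Matrix.one_mulVec, zero_sub, sub_zero] at h2
  have hs' : Vh G 1 (s *ᵥ (inc *ᵥ il z)) := by
    have := Vh.mulVec hs1 hv2
    exact this
  obtain ⟨w, hw1, hw⟩ := h.inc_surj 1 _ le_rfl hs'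
  rw [← hw, h.G_d_inc, neg_inj] at h2
  have h3 : inc *ᵥ (c • il z - w (Sum.inr ()) • il eps) = 0 := by
    rw [Matrix.mulVec_sub, Matrix.mulVec_smul, Matrix.mulVec_smul, h2, sub_self]
  have h4 := h.inc_inj _ (by
    rintro (j | j) hj
    · rw [h.X'_deg] at hj
      simp only [Sum.elim_inl] at hj
      simp [il, hz j hj, h.eps_deg j hj]
    · simp [il]) h3
  refine ⟨c⁻¹ * w (Sum.inr ()), ?_⟩
  ext j
  have h5 := congrFun h4 (Sum.inl j)
  simp only [il, Pi.sub_apply, Pi.smul_apply, Sum.elim_inl, smul_eq_mul, Pi.zero_apply,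
    sub_eq_zero] at h5 ⊢
  rw [mul_assoc, ← h5, ← mul_assoc, inv_mul_cancel₀ h.c_ne, one_mul]

theorem eps_ne (h : ReadData X X' X'' V G eps inc Dh al be ga De A c) {j : J}
    (hj : X.deg j = 1) : eps ≠ 0 := by
  intro h0
  have hz : Vh X 1 (Pi.single j 1 : J → k) := by
    intro i hi
    rw [Pi.single_apply, if_neg]
    rintro rfl; exact hi hj
  obtain ⟨t, ht⟩ := h.e1 hz (by rw [h0, zero_tv, Matrix.mulVec_zero])
  rw [h0, smul_zero] at ht
  have := congrFun ht j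
  simp at this

/-- Every value of `D` in positive degrees is a value of `D (eps, ·)`. -/
theorem e2 (h : ReadData X X' X'' V G eps inc Dh al be ga De A c) (he : eps ≠ 0) {n : ℤ}
    (hn : 1 ≤ n) {v : J × J → k} (hv : Vh (X.tensor X) n v) :
    ∃ z, Vh X (n - 1) z ∧ (al * Dh) *ᵥ v = (al * Dh) *ᵥ tv eps z := by
  obtain ⟨w, hw1, hw⟩ := h.inc_surj n (Dh *ᵥ v) hn (by
    have := Vh.mulVec h.Dh_cl.hmg hv
    rwa [add_zero] at this)
  have hd : G.d *ᵥ (Dh *ᵥ v) = 0 := by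
    rw [Matrix.mulVec_mulVec, h.Dh_cl.comm0, tensor_d, h.X_d, zero_kron, kron_zero]
    simp
  have hr : w (Sum.inr ()) = 0 := by
    by_contra hne
    rw [← hw, h.G_d_inc, neg_eq_zero] at hd
    have h1 : inc *ᵥ il eps = 0 := by
      rcases smul_eq_zero.mp hd with h | h
      · exact absurd h hne
      · exact h
    have h2 := h.inc_inj _ (by
      rintro (j | j) hj
      · rw [h.X'_deg] at hj; exact h.eps_deg j hj
      · rfl) h1
    apply he
    ext j
    exact congrFun h2 (Sum.inl j)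
  let z : J → k := fun j => w (Sum.inl j)
  have hwz : w = il z := by
    ext (j | j)
    · rfl
    · exact hr
  have hz1 : Vh X (n - 1) z := by
    intro j hj
    exact hw1 (Sum.inl j) (by rw [h.X'_deg]; exact hj)
  refine ⟨-z, ?_, ?_⟩
  · intro j hj
    simp [hz1 j hj]
  · rw [tv_neg, Matrix.mulVec_neg, ← h.al_inc (fun j hj => hz1 j (by omega)), ← hwz, hw,
      Matrix.mulVec_mulVec]

end ReadData

end Cx

end LicciCx
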