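import Pool.Agent.Work.MP_a98e4e_ag.Cx.Basic

/-!
# Tensor products, duals and Hom complexes
-/

set_option autoImplicit false
set_option linter.unusedSectionVars false

open Matrix Kronecker

namespace LicciCx

variable {R : Type*} [CommRing R]

section kron

variable {A A' B B' : Type*}

theorem smul_kron (c : R) (f : Matrix A A' R) (g : Matrix B B' R) :
    (c • f) ⊗ₖ g = c • (f ⊗ₖ g) := by
  ext i j; simp [Matrix.kroneckerMap_apply, mul_assoc]

theorem kron_smul (c : R) (f : Matrix A A' R) (g : Matrix B B' R) :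
    f ⊗ₖ (c • g) = c • (f ⊗ₖ g) := by
  ext i j; simp [Matrix.kroneckerMap_apply, mul_left_comm]

theorem neg_kron (f : Matrix A A' R) (g : Matrix B B' R) :
    (-f) ⊗ₖ g = -(f ⊗ₖ g) := by
  ext i j; simp [Matrix.kroneckerMap_apply]

theorem kron_neg (f : Matrix A A' R) (g : Matrix B B' R) :
    f ⊗ₖ (-g) = -(f ⊗ₖ g) := by
  ext i j; simp [Matrix.kroneckerMap_apply]

theorem sub_kron (f f' : Matrix A A' R) (g : Matrix B B' R) :
    (f - f') ⊗ₖ g = f ⊗ₖ g - f' ⊗ₖ g := by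
  ext i j; simp [Matrix.kroneckerMap_apply, sub_mul]

theorem kron_sub (f : Matrix A A' R) (g g' : Matrix B B' R) :
    f ⊗ₖ (g - g') = f ⊗ₖ g - f ⊗ₖ g' := by
  ext i j; simp [Matrix.kroneckerMap_apply, mul_sub]

theorem add_kron (f f' : Matrix A A' R) (g : Matrix B B' R) :
    (f + f') ⊗ₖ g = f ⊗ₖ g + f' ⊗ₖ g := by
  ext i j; simp [Matrix.kroneckerMap_apply, add_mul]

theorem kron_add (f : Matrix A A' R) (g g' : Matrix B B' R) :
    f ⊗ₖ (g + g') = f ⊗ₖ g + f ⊗ₖ g' := by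
  ext i j; simp [Matrix.kroneckerMap_apply, mul_add]

theorem zero_kron (g : Matrix B B' R) : (0 : Matrix A A' R) ⊗ₖ g = 0 := by
  ext i j; simp [Matrix.kroneckerMap_apply]

theorem kron_zero (f : Matrix A A' R) : f ⊗ₖ (0 : Matrix B B' R) = 0 := by
  ext i j; simp [Matrix.kroneckerMap_apply]

end kron

namespace Cx

variable {J J' J'' J₁ J₁' : Type*} [Fintype J] [Fintype J'] [Fintype J''] [Fintype J₁]
  [Fintype J₁'] [DecidableEq J] [DecidableEq J'] [DecidableEq J''] [DecidableEq J₁]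
  [DecidableEq J₁']

/-! ## tensor product -/

/-- the tensor product -/
def tensor (K : Cx R J) (L : Cx R J') : Cx R (J × J') where
  deg x := K.deg x.1 + L.deg x.2
  d := K.d ⊗ₖ 1 + K.e ⊗ₖ L.d
  hmg := ((K.hmg.kron Hmg.one).cast (by ring)).add ((K.e_hmg.kron L.hmg).cast (by ring))
  sq := by
    rw [Matrix.mul_add, Matrix.add_mul, Matrix.add_mul, ← Matrix.mul_kronecker_mul,
      ← Matrix.mul_kronecker_mul, ← Matrix.mul_kronecker_mul, ← Matrix.mul_kronecker_mul,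
      K.sq, L.sq, zero_kron, kron_zero, K.e_mul_d, Matrix.one_mul, Matrix.mul_one, neg_kron]
    abel

variable {K : Cx R J} {L : Cx R J'} {M : Cx R J''} {K' : Cx R J₁} {L' : Cx R J₁'} {n m : ℤ}

theorem tensor_e : (K.tensor L).e = K.e ⊗ₖ L.e := ep_kron

theorem tensor_d : (K.tensor L).d = K.d ⊗ₖ 1 + K.e ⊗ₖ L.d := rfl

theorem tensor_deg (x : J × J') : (K.tensor L).deg x = K.deg x.1 + L.deg x.2 := rfl

theorem e_mul_hmg0 {f : Matrix J' J R} (hf : IsHmg K L 0 f) : L.e * f = f * K.e :=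
  ep_mul_even hf

theorem e_mul_hmg {f : Matrix J' J R} (hf : IsHmg K L n f) :
    L.e * f = ((sg n : ℤ) : R) • (f * K.e) := ep_mul hf

theorem IsHmg.kron {f : Matrix J₁ J R} {g : Matrix J₁' J' R} (hf : IsHmg K K' n f)
    (hg : IsHmg L L' m g) :
    IsHmg (K.tensor L) (K'.tensor L') (n + m) (f ⊗ₖ g) := Hmg.kron hf hg

/-- the tensor product of a closed map of degree `n` with a closed map of degree `0` -/
theorem Cl.kron {f : Matrix J₁ J R} {g : Matrix J₁' J' R} (hf : Cl K K' n f)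
    (hg : Cl L L' 0 g) : Cl (K.tensor L) (K'.tensor L') n (f ⊗ₖ g) :=
  ⟨(IsHmg.kron hf.hmg hg.hmg).cast (add_zero n), by
    rw [tensor_d, tensor_d, Matrix.add_mul, Matrix.mul_add, ← Matrix.mul_kronecker_mul,
      ← Matrix.mul_kronecker_mul, ← Matrix.mul_kronecker_mul, ← Matrix.mul_kronecker_mul,
      hf.comm, hg.comm0, e_mul_hmg hf.hmg, Matrix.one_mul, Matrix.mul_one, smul_add, smul_kron,
      smul_kron]⟩

/-- the tensor product of a closed map of degree `0` with a closed map of odd degree -/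
theorem Cl.kron_odd {f : Matrix J₁ J R} {g : Matrix J₁' J' R} (hf : Cl K K' 0 f)
    (hg : Cl L L' n g) (hn : Odd n) :
    Cl (K.tensor L) (K'.tensor L') n ((f * K.e) ⊗ₖ g) :=
  ⟨(IsHmg.kron (hf.hmg.mul K.e_hmg) hg.hmg).cast (by ring), by
    have h1 : K'.d * (f * K.e) = f * K.d * K.e := by rw [← Matrix.mul_assoc, hf.comm0]
    have h2 : K'.e * (f * K.e) = f := by
      rw [← Matrix.mul_assoc, e_mul_hmg0 hf.hmg, Matrix.mul_assoc, K.e_mul_self,
        Matrix.mul_one]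
    have h3 : f * K.e * K.d = -(f * K.d * K.e) := by
      rw [Matrix.mul_assoc, K.e_mul_d, Matrix.mul_neg, Matrix.mul_assoc]
    have h4 : f * K.e * K.e = f := by rw [Matrix.mul_assoc, K.e_mul_self, Matrix.mul_one]
    rw [tensor_d, tensor_d, Matrix.add_mul, Matrix.mul_add, ← Matrix.mul_kronecker_mul,
      ← Matrix.mul_kronecker_mul, ← Matrix.mul_kronecker_mul, ← Matrix.mul_kronecker_mul,
      h1, h2, h3, h4, hg.comm, Matrix.one_mul, Matrix.mul_one, smul_add, kron_smul, neg_kron,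
      sg_odd hn]
    simp⟩

theorem Bd.kron {f : Matrix J₁ J R} {g : Matrix J₁' J' R} (hf : Bd K K' n f)
    (hg : Cl L L' 0 g) : Bd (K.tensor L) (K'.tensor L') n (f ⊗ₖ g) := by
  obtain ⟨s, hs, rfl⟩ := hf
  refine ⟨s ⊗ₖ g, (IsHmg.kron hs hg.hmg).cast (by ring), ?_⟩
  rw [tensor_d, tensor_d, Matrix.add_mul, Matrix.mul_add, ← Matrix.mul_kronecker_mul,
      ← Matrix.mul_kronecker_mul, ← Matrix.mul_kronecker_mul, ← Matrix.mul_kronecker_mul,
      hg.comm0, e_mul_hmg hs, Matrix.one_mul, Matrix.mul_one, smul_add, smul_kron, add_kron,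
      smul_kron, sg_sub, sg_one]
  push_cast
  rw [mul_neg_one, neg_smul]
  abel

theorem Cl.kron_bd {f : Matrix J₁ J R} {g : Matrix J₁' J' R} (hf : Cl K K' 0 f)
    (hg : Bd L L' 0 g) : Bd (K.tensor L) (K'.tensor L') 0 (f ⊗ₖ g) := by
  obtain ⟨s, hs, rfl⟩ := hg
  refine ⟨(f * K.e) ⊗ₖ s, (IsHmg.kron (hf.hmg.mul K.e_hmg) hs).cast (by ring), ?_⟩
  have h1 : K'.d * (f * K.e) = f * K.d * K.e := by rw [← Matrix.mul_assoc, hf.comm0]
  have h2 : K'.e * (f * K.e) = f := by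
    rw [← Matrix.mul_assoc, e_mul_hmg0 hf.hmg, Matrix.mul_assoc, K.e_mul_self,
      Matrix.mul_one]
  have h3 : f * K.e * K.d = -(f * K.d * K.e) := by
    rw [Matrix.mul_assoc, K.e_mul_d, Matrix.mul_neg, Matrix.mul_assoc]
  have h4 : f * K.e * K.e = f := by rw [Matrix.mul_assoc, K.e_mul_self, Matrix.mul_one]
  rw [tensor_d, tensor_d, Matrix.add_mul, Matrix.mul_add, ← Matrix.mul_kronecker_mul,
      ← Matrix.mul_kronecker_mul, ← Matrix.mul_kronecker_mul, ← Matrix.mul_kronecker_mul,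
      h1, h2, h3, h4, Matrix.one_mul, Matrix.mul_one, kron_add, neg_kron, sg_zero]
  simp only [Int.cast_one, one_smul]
  abel

/-! ## the dual -/

/-- the dual complex -/
def dual (K : Cx R J) : Cx R J where
  deg j := -K.deg j
  d := -(K.e * K.d)ᵀ
  hmg := (((K.e_hmg.mul K.hmg).transpose).neg).cast (by ring)
  sq := by
    rw [Matrix.neg_mul, Matrix.mul_neg, neg_neg, ← Matrix.transpose_mul, Matrix.mul_assoc,
      ← Matrix.mul_assoc K.d, K.d_mul_e, Matrix.neg_mul, Matrix.mul_assoc, K.sq,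
      Matrix.mul_zero, neg_zero, Matrix.mul_zero, Matrix.transpose_zero]

theorem dual_d : K.dual.d = -(K.e * K.d)ᵀ := rfl

theorem dual_deg (j : J) : K.dual.deg j = -K.deg j := rfl

theorem dual_e : K.dual.e = K.e := ep_neg

theorem IsHmg.transpose {f : Matrix J' J R} (hf : IsHmg K L n f) :
    IsHmg L.dual K.dual n fᵀ := Hmg.transpose hf

theorem Cl.transpose {f : Matrix J' J R} (hf : Cl K L 0 f) : Cl L.dual K.dual 0 fᵀ := by
  refine Cl.mk0 (IsHmg.transpose hf.hmg) ?_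
  rw [dual_d, dual_d, Matrix.neg_mul, Matrix.mul_neg, ← Matrix.transpose_mul,
    ← Matrix.transpose_mul, Matrix.mul_assoc, hf.comm0, ← Matrix.mul_assoc,
    ← Matrix.mul_assoc, e_mul_hmg0 hf.hmg]

theorem Bd.transpose {f : Matrix J' J R} (hf : Bd K L 0 f) :
    Bd L.dual K.dual 0 fᵀ := by
  obtain ⟨s, hs, rfl⟩ := hf
  have hs1 : IsHmg K L (-1) s := hs.cast (by ring)
  have hs' : s * K.e = -(L.e * s) := by rw [e_mul_hmg hs1, sg_neg, sg_one]; simp
  refine ⟨-(s * K.e)ᵀ, (IsHmg.transpose (hs1.mul' K.e_hmg (add_zero _))).neg.cast (by ring), ?_⟩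
  have h2 : L.e * (L.d * s * K.e) = L.d * s := by
    rw [← Matrix.mul_assoc, e_mul_hmg0 (L.hmg.mul' hs1 (by ring) : IsHmg K L 0 _),
      Matrix.mul_assoc, K.e_mul_self, Matrix.mul_one]
  have h3 : K.e * K.d = -(K.d * K.e) := K.e_mul_d
  rw [dual_d, dual_d, Matrix.neg_mul, Matrix.mul_neg, neg_neg, Matrix.neg_mul, Matrix.mul_neg,
    neg_neg, ← Matrix.transpose_mul, ← Matrix.transpose_mul, sg_zero, Int.cast_one, one_smul,
    one_smul, ← Matrix.transpose_add]
  congr 1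
  rw [Matrix.mul_assoc s, ← Matrix.mul_assoc K.e K.e, K.e_mul_self, Matrix.one_mul, add_comm]
  congr 1
  rw [Matrix.mul_assoc L.e, ← Matrix.mul_assoc L.d, h2]

theorem kron_transpose' {A A' B B' : Type*} (f : Matrix A A' R) (g : Matrix B B' R) :
    (f ⊗ₖ g)ᵀ = fᵀ ⊗ₖ gᵀ := by
  ext i j; simp [Matrix.kroneckerMap_apply]

/-! ## the Hom complex -/

/-- The Hom complex; a vector of `Hom K L` is an uncurried matrix. -/
def Hom (K : Cx R J) (L : Cx R J') : Cx R (J' × J) := L.tensor K.dual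

/-- the vector of a matrix -/
def vec (f : Matrix J' J R) : J' × J → R := fun x => f x.1 x.2

theorem vec_inj {f g : Matrix J' J R} (h : vec f = vec g) : f = g := by
  ext i j; exact congrFun h (i, j)

theorem vec_of (v : J' × J → R) : vec (Matrix.of fun i j => v (i, j)) = v := rfl

theorem Hom_deg (x : J' × J) : (Hom K L).deg x = L.deg x.1 - K.deg x.2 := by
  show L.deg x.1 + -K.deg x.2 = _
  ring

theorem Hom_d_vec (f : Matrix J' J R) :
    (Hom K L).d *ᵥ vec f = vec (L.d * f - L.e * f * (K.e * K.d)) := by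
  ext ⟨i, j⟩
  show ((L.d ⊗ₖ 1 + L.e ⊗ₖ (-(K.e * K.d)ᵀ)) *ᵥ vec f) (i, j) = _
  rw [Matrix.add_mulVec, Pi.add_apply]
  simp only [Matrix.mulVec, dotProduct, Fintype.sum_prod_type, Matrix.kroneckerMap_apply, vec]
  rw [Matrix.sub_apply, sub_eq_add_neg]
  congr 1
  · rw [Matrix.mul_apply]
    refine Finset.sum_congr rfl fun k _ => ?_
    rw [Finset.sum_eq_single j]
    · simp
    · intro b _ hb; simp [Matrix.one_apply_ne hb.symm]
    · simp
  · rw [Matrix.mul_apply, ← Finset.sum_neg_distrib, Finset.sum_comm]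
    refine Finset.sum_congr rfl fun k _ => ?_
    rw [Matrix.mul_apply, Finset.sum_mul, ← Finset.sum_neg_distrib]
    refine Finset.sum_congr rfl fun l _ => ?_
    simp only [Matrix.neg_apply, Matrix.transpose_apply]
    ring

theorem e_mul_e_d {f : Matrix J' J R} (hf : IsHmg K L n f) :
    L.e * f * (K.e * K.d) = ((sg n : ℤ) : R) • (f * K.d) := by
  rw [e_mul_hmg hf, Matrix.smul_mul, Matrix.mul_assoc, ← Matrix.mul_assoc K.e, K.e_mul_self,
    Matrix.one_mul]

/-- vectors supported in degree `n` -/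
def Vh (K : Cx R J) (n : ℤ) (v : J → R) : Prop := ∀ j, K.deg j ≠ n → v j = 0

theorem vec_hmg {f : Matrix J' J R} : Vh (Hom K L) n (vec f) ↔ IsHmg K L n f := by
  constructor
  · intro h i j hij
    exact h (i, j) (by rw [Hom_deg]; intro h2; apply hij; simp only at h2; omega)
  · rintro h ⟨i, j⟩ hij
    rw [Hom_deg] at hij
    exact h i j (by intro h2; apply hij; simp only; omega)

theorem cl_iff {f : Matrix J' J R} :
    Cl K L n f ↔ Vh (Hom K L) n (vec f) ∧ (Hom K L).d *ᵥ vec f = 0 := by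
  rw [vec_hmg, Hom_d_vec]
  constructor
  · intro h
    refine ⟨h.hmg, ?_⟩
    rw [e_mul_e_d h.hmg, h.comm, sub_self]; rfl
  · rintro ⟨h1, h2⟩
    refine ⟨h1, ?_⟩
    rw [e_mul_e_d h1] at h2
    have h3 : L.d * f - ((sg n : ℤ) : R) • (f * K.d) = 0 := vec_inj (h2.trans rfl)
    exact sub_eq_zero.mp h3

theorem bd_iff {f : Matrix J' J R} :
    Bd K L n f ↔ ∃ v, Vh (Hom K L) (n - 1) v ∧ (Hom K L).d *ᵥ v = vec f := by
  constructor
  · rintro ⟨s, hs, rfl⟩
    refine ⟨vec s, vec_hmg.2 hs, ?_⟩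
    rw [Hom_d_vec, e_mul_e_d hs, sg_sub, sg_one]
    congr 1
    push_cast
    rw [mul_neg_one, neg_smul, sub_neg_eq_add]
  · rintro ⟨v, hv, h⟩
    refine ⟨Matrix.of fun i j => v (i, j), vec_hmg.1 (by rw [vec_of]; exact hv), ?_⟩
    apply vec_inj
    rw [← h]
    conv_lhs => rw [← vec_of v]
    rw [Hom_d_vec, e_mul_e_d (vec_hmg.1 (by rw [vec_of]; exact hv) : IsHmg K L (n - 1) _),
      sg_sub, sg_one]
    congr 1
    push_cast
    rw [mul_neg_one, neg_smul, sub_neg_eq_add]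

end Cx

end LicciCx
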