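import Pool.Agent.Work.MP_a98e4e_ag.Cx.Cone
import Pool.Agent.Work.MP_a98e4e_ag.Cx.Depth

/-!
# Complexes that are contractible outside degree zero up to a scalar

`Con K c`: there is `h` of degree `-1` such that `c - (d h + h d)` is supported in degree zero.
Stability under tensor products, duals, extensions, cones and fibres.
-/

set_option autoImplicit false
set_option linter.unusedSectionVars false

open Matrix Kronecker

namespace LicciCx

variable {R : Type*} [CommRing R]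

/-- matrices supported in degree zero -/
def Sup0 {J J' : Type*} (p' : J' → ℤ) (p : J → ℤ) (f : Matrix J' J R) : Prop :=
  ∀ i j, ¬ (p' i = 0 ∧ p j = 0) → f i j = 0

section Sup0

variable {J J' J'' : Type*} {p : J → ℤ} {p' : J' → ℤ} {p'' : J'' → ℤ} {n m : ℤ}

theorem Sup0.zero : Sup0 p' p (0 : Matrix J' J R) := fun _ _ _ => rfl

theorem Sup0.add {f g : Matrix J' J R} (hf : Sup0 p' p f) (hg : Sup0 p' p g) :
    Sup0 p' p (f + g) := by
  intro i j h; simp [hf i j h, hg i j h]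

theorem Sup0.sub {f g : Matrix J' J R} (hf : Sup0 p' p f) (hg : Sup0 p' p g) :
    Sup0 p' p (f - g) := by
  intro i j h; simp [hf i j h, hg i j h]

theorem Sup0.neg {f : Matrix J' J R} (hf : Sup0 p' p f) : Sup0 p' p (-f) := by
  intro i j h; simp [hf i j h]

theorem Sup0.smul (c : R) {f : Matrix J' J R} (hf : Sup0 p' p f) : Sup0 p' p (c • f) := by
  intro i j h; simp [hf i j h]

theorem Sup0.hmg {f : Matrix J' J R} (hf : Sup0 p' p f) : Hmg p' p 0 f := by
  intro i j h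
  exact hf i j (by rintro ⟨h1, h2⟩; apply h; rw [h1, h2]; rfl)

/-- a homogeneous matrix times a matrix supported in degree zero -/
theorem Sup0.hmg_mul [Fintype J'] {f : Matrix J'' J' R} {g : Matrix J' J R}
    (hf : Hmg p'' p' 0 f) (hg : Sup0 p' p g) : Sup0 p'' p (f * g) := by
  intro i j h
  rw [Matrix.mul_apply]
  refine Finset.sum_eq_zero fun k _ => ?_
  by_cases h1 : p' k = 0 ∧ p j = 0
  · rw [hf i k (by intro h2; apply h; exact ⟨by rw [h2, h1.1]; rfl, h1.2⟩), zero_mul]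
  · rw [hg k j h1, mul_zero]

theorem Sup0.mul_hmg [Fintype J'] {f : Matrix J'' J' R} {g : Matrix J' J R}
    (hf : Sup0 p'' p' f) (hg : Hmg p' p 0 g) : Sup0 p'' p (f * g) := by
  intro i j h
  rw [Matrix.mul_apply]
  refine Finset.sum_eq_zero fun k _ => ?_
  by_cases h1 : p'' i = 0 ∧ p' k = 0
  · rw [hg k j (by intro h2; apply h; exact ⟨h1.1, by rw [h1.2] at h2; omega⟩), mul_zero]
  · rw [hf i k h1, zero_mul]

theorem Sup0.transpose {f : Matrix J' J R} (hf : Sup0 p' p f) :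
    Sup0 (fun j => -p j) (fun i => -p' i) fᵀ := by
  intro j i h
  exact hf i j (by rintro ⟨h1, h2⟩; apply h; simp [h1, h2])

theorem Sup0.kron {J₁ J₁' : Type*} {p₁ : J₁ → ℤ} {p₁' : J₁' → ℤ} {f : Matrix J' J R}
    {g : Matrix J₁' J₁ R} (hf : Sup0 p' p f) (hg : Sup0 p₁' p₁ g) :
    Sup0 (fun x : J' × J₁' => p' x.1 + p₁' x.2) (fun x : J × J₁ => p x.1 + p₁ x.2)
      (f ⊗ₖ g) := by
  rintro ⟨i, i'⟩ ⟨j, j'⟩ h
  rw [Matrix.kroneckerMap_apply]
  by_cases h1 : p' i = 0 ∧ p j = 0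
  · have h2 : ¬ (p₁' i' = 0 ∧ p₁ j' = 0) := by
      rintro ⟨h2, h3⟩; apply h; simp only; omega
    simp only [hg i' j' h2, mul_zero]
  · simp only [hf i j h1, zero_mul]

theorem Sup0.fromBlocks {J₁ J₁' : Type*} {p₁ : J₁ → ℤ} {p₁' : J₁' → ℤ} {A : Matrix J' J R}
    {B : Matrix J' J₁ R} {C : Matrix J₁' J R} {D : Matrix J₁' J₁ R} (hA : Sup0 p' p A)
    (hB : Sup0 p' p₁ B) (hC : Sup0 p₁' p C) (hD : Sup0 p₁' p₁ D) :
    Sup0 (Sum.elim p' p₁') (Sum.elim p p₁) (Matrix.fromBlocks A B C D) := by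
  rintro (i | i) (j | j) h
  · exact hA i j h
  · exact hB i j h
  · exact hC i j h
  · exact hD i j h

end Sup0

namespace Cx

variable {J J' : Type*} [Fintype J] [Fintype J'] [DecidableEq J] [DecidableEq J']

/-- `h` contracts `K` outside degree `0`, up to the scalar `c` -/
structure IsCon (K : Cx R J) (c : R) (h : Matrix J J R) : Prop where
  hmg : IsHmg K K (-1) h
  sup : Sup0 K.deg K.deg (c • (1 : Matrix J J R) - (K.d * h + h * K.d))

/-- `K` is contractible outside degree `0`, up to the scalar `c` -/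
def Con (K : Cx R J) (c : R) : Prop := ∃ h, IsCon K c h

/-- `K` is contractible outside degree `0`, up to a power of `a` -/
def UE (K : Cx R J) (a : R) : Prop := ∃ N : ℕ, Con K (a ^ N)

variable {K : Cx R J} {L : Cx R J'}

theorem UE.iff_licci (K : Cx R J) (a : R) :
    UE K a ↔ Pool.Agent.Licci.UE K.deg K.d a := by
  constructor
  · rintro ⟨N, h, h1, h2⟩
    refine ⟨N, h, ?_, ?_⟩
    · intro i j hij
      by_contra h0
      exact hij (h1 i j (by omega))
    · intro i j hij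
      by_contra h0
      exact hij (h2 i j h0)
  · rintro ⟨N, h, h1, h2⟩
    refine ⟨N, h, ?_, ?_⟩
    · intro i j hij
      by_contra h0
      exact hij (by have := h1 i j h0; omega)
    · intro i j hij
      by_contra h0
      exact hij (h2 i j h0)

/-- the projector of a contraction -/
def pr (K : Cx R J) (c : R) (h : Matrix J J R) : Matrix J J R :=
  c • (1 : Matrix J J R) - (K.d * h + h * K.d)

theorem homotopy_comm (K : Cx R J) (h : Matrix J J R) :
    K.d * (K.d * h + h * K.d) = (K.d * h + h * K.d) * K.d := by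
  rw [Matrix.mul_add, Matrix.add_mul, ← Matrix.mul_assoc, K.sq, Matrix.zero_mul, zero_add,
    Matrix.mul_assoc h, K.sq, Matrix.mul_zero, add_zero, Matrix.mul_assoc]

theorem pr_comm (K : Cx R J) (c : R) (h : Matrix J J R) :
    K.d * K.pr c h = K.pr c h * K.d := by
  rw [pr, Matrix.mul_sub, Matrix.sub_mul, homotopy_comm]
  simp

theorem IsCon.d_pr {c : R} {h : Matrix J J R} (hh : IsCon K c h) : K.d * K.pr c h = 0 := by
  ext i j
  by_contra h0
  have h1 : K.deg j = 0 ∧ K.deg i = 1 := by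
    rw [Matrix.mul_apply] at h0
    obtain ⟨k, -, hk⟩ := Finset.exists_ne_zero_of_sum_ne_zero h0
    have h2 := right_ne_zero_of_mul hk
    have h3 := left_ne_zero_of_mul hk
    have h4 : K.deg k = 0 ∧ K.deg j = 0 := by
      by_contra h5; exact h2 (hh.sup k j h5)
    have h6 : K.deg i = K.deg k + 1 := by
      by_contra h5; exact h3 (K.hmg i k h5)
    exact ⟨h4.2, by rw [h6, h4.1]; rfl⟩
  apply h0
  rw [pr_comm, Matrix.mul_apply]
  refine Finset.sum_eq_zero fun k _ => ?_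
  rw [show K.pr c h i k = 0 from hh.sup i k (by rintro ⟨h5, -⟩; omega), zero_mul]

theorem IsCon.pr_d {c : R} {h : Matrix J J R} (hh : IsCon K c h) : K.pr c h * K.d = 0 := by
  rw [← pr_comm, hh.d_pr]

theorem IsCon.smul {c : R} {h : Matrix J J R} (hh : IsCon K c h) (c' : R) :
    IsCon K (c' * c) (c' • h) := by
  refine ⟨hh.hmg.smul c', ?_⟩
  have := hh.sup.smul c'
  rw [smul_sub, smul_smul, smul_add, ← Matrix.mul_smul, ← Matrix.smul_mul] at this
  exact this

theorem Con.smul {c : R} (hK : Con K c) (c' : R) : Con K (c' * c) := by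
  obtain ⟨h, hh⟩ := hK
  exact ⟨_, hh.smul c'⟩

theorem Con.mul_right {c : R} (hK : Con K c) (c' : R) : Con K (c * c') := by
  rw [mul_comm]; exact hK.smul c'

theorem comp_identity {A : Type*} [Ring A] [Algebra R A] {d h₀ h₁ : A} (hd : d * d = 0)
    (c c' : R) :
    (c' * c) • (1 : A) - (d * (c' • h₁ + c • h₀ - h₀ * (d * h₁ + h₁ * d)) +
      (c' • h₁ + c • h₀ - h₀ * (d * h₁ + h₁ * d)) * d) =
    (c' • (1 : A) - (d * h₀ + h₀ * d)) * (c • (1 : A) - (d * h₁ + h₁ * d)) := by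
  have hd' : ∀ x, d * (d * x) = 0 := fun x => by rw [← mul_assoc, hd, zero_mul]
  simp only [mul_add, add_mul, mul_sub, sub_mul, smul_mul_assoc, mul_smul_comm, mul_one, one_mul,
    mul_assoc, hd, hd', mul_zero, add_zero]
  module

/-- composition lemma -/
theorem Con.comp {c c' : R} {h₀ h₁ : Matrix J J R} (hh₀ : IsHmg K K (-1) h₀)
    (hh₁ : IsHmg K K (-1) h₁)
    (hs : Sup0 K.deg K.deg ((c' • (1 : Matrix J J R) - (K.d * h₀ + h₀ * K.d)) *
      (c • (1 : Matrix J J R) - (K.d * h₁ + h₁ * K.d)))) : Con K (c' * c) := by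
  have hg : IsHmg K K 0 (K.d * h₁ + h₁ * K.d) :=
    (K.hmg.mul' hh₁ (by norm_num)).add (hh₁.mul' K.hmg (by norm_num))
  refine ⟨c' • h₁ + c • h₀ - h₀ * (K.d * h₁ + h₁ * K.d),
    ((hh₁.smul c').add (hh₀.smul c)).sub (hh₀.mul' hg (by norm_num)), ?_⟩
  rw [comp_identity K.sq]
  exact hs

/-! ## tensor product and dual -/

theorem IsCon.tensor {c c' : R} {h : Matrix J J R} {h' : Matrix J' J' R} (hh : IsCon K c h)
    (hh' : IsCon L c' h') :
    IsCon (K.tensor L) (c * c') (c' • (h ⊗ₖ (1 : Matrix J' J' R)) + K.pr c h ⊗ₖ h') := by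
  have hp : K.e * K.pr c h = K.pr c h := by
    ext i j
    simp only [ep, Matrix.diagonal_mul]
    by_cases h0 : K.deg i = 0 ∧ K.deg j = 0
    · rw [h0.1, sg_zero]; simp
    · rw [show K.pr c h i j = 0 from hh.sup i j h0, mul_zero]
  have hp' : K.pr c h * K.e = K.pr c h := by
    ext i j
    simp only [ep, Matrix.mul_diagonal]
    by_cases h0 : K.deg i = 0 ∧ K.deg j = 0
    · rw [h0.2, sg_zero]; simp
    · rw [show K.pr c h i j = 0 from hh.sup i j h0, zero_mul]
  have heh : K.e * h = -(h * K.e) := ep_mul_odd' hh.hmg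
  refine ⟨?_, ?_⟩
  · refine Hmg.add (Hmg.smul c' ((IsHmg.kron hh.hmg (Hmg.one : IsHmg L L 0 1)).cast (by ring))) ?_
    exact (IsHmg.kron (n := 0) (hh.sup.hmg : IsHmg K K 0 (K.pr c h)) hh'.hmg).cast (by ring)
  · have key : (c * c') • (1 : Matrix (J × J') (J × J') R) -
        ((K.tensor L).d * (c' • (h ⊗ₖ (1 : Matrix J' J' R)) + K.pr c h ⊗ₖ h') +
          (c' • (h ⊗ₖ (1 : Matrix J' J' R)) + K.pr c h ⊗ₖ h') * (K.tensor L).d) =
        K.pr c h ⊗ₖ L.pr c' h' := by
      have h1 : K.d * h + h * K.d = c • (1 : Matrix J J R) - K.pr c h := by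
        rw [pr]; abel
      have h2 : L.d * h' + h' * L.d = c' • (1 : Matrix J' J' R) - L.pr c' h' := by
        rw [pr]; abel
      have e1 : (K.tensor L).d * (h ⊗ₖ (1 : Matrix J' J' R)) + (h ⊗ₖ (1 : Matrix J' J' R)) * (K.tensor L).d
          = (c • (1 : Matrix J J R) - K.pr c h) ⊗ₖ (1 : Matrix J' J' R) := by
        rw [tensor_d, Matrix.add_mul, Matrix.mul_add, ← Matrix.mul_kronecker_mul,
          ← Matrix.mul_kronecker_mul, ← Matrix.mul_kronecker_mul, ← Matrix.mul_kronecker_mul,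
          heh, ← h1, add_kron, neg_kron]
        simp only [Matrix.mul_one, Matrix.one_mul]
        abel
      have e2 : (K.tensor L).d * (K.pr c h ⊗ₖ h') + (K.pr c h ⊗ₖ h') * (K.tensor L).d
          = K.pr c h ⊗ₖ (c' • (1 : Matrix J' J' R) - L.pr c' h') := by
        rw [tensor_d, Matrix.add_mul, Matrix.mul_add, ← Matrix.mul_kronecker_mul,
          ← Matrix.mul_kronecker_mul, ← Matrix.mul_kronecker_mul, ← Matrix.mul_kronecker_mul,
          hh.d_pr, hh.pr_d, hp, hp', zero_kron, zero_kron, zero_add, zero_add, ← h2, kron_add]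
      have e3 : (K.tensor L).d * (c' • (h ⊗ₖ (1 : Matrix J' J' R)) + K.pr c h ⊗ₖ h') +
          (c' • (h ⊗ₖ (1 : Matrix J' J' R)) + K.pr c h ⊗ₖ h') * (K.tensor L).d =
          c' • ((K.tensor L).d * (h ⊗ₖ (1 : Matrix J' J' R)) + (h ⊗ₖ (1 : Matrix J' J' R)) * (K.tensor L).d)
          + ((K.tensor L).d * (K.pr c h ⊗ₖ h') + (K.pr c h ⊗ₖ h') * (K.tensor L).d) := by
        rw [Matrix.mul_add, Matrix.add_mul, Matrix.mul_smul, Matrix.smul_mul, smul_add]
        abel
      rw [e3, e1, e2, sub_kron, kron_sub, smul_kron, kron_smul, Matrix.one_kronecker_one,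
        smul_sub, smul_smul, mul_comm c' c]
      abel
    have h3 : Sup0 (K.tensor L).deg (K.tensor L).deg (K.pr c h ⊗ₖ L.pr c' h') :=
      Sup0.kron hh.sup hh'.sup
    rw [← key] at h3
    exact h3

theorem Con.tensor {c c' : R} (hK : Con K c) (hL : Con L c') : Con (K.tensor L) (c * c') := by
  obtain ⟨h, hh⟩ := hK
  obtain ⟨h', hh'⟩ := hL
  exact ⟨_, hh.tensor hh'⟩

theorem IsCon.dual {c : R} {h : Matrix J J R} (hh : IsCon K c h) :
    IsCon K.dual c (K.e * h)ᵀ := by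
  have heh : K.e * h = -(h * K.e) := ep_mul_odd' hh.hmg
  refine ⟨(IsHmg.transpose (K := K) (L := K) (K.e_hmg.mul hh.hmg)).cast (by ring), ?_⟩
  have h1 : K.dual.d * (K.e * h)ᵀ + (K.e * h)ᵀ * K.dual.d = (K.d * h + h * K.d)ᵀ := by
    rw [dual_d, Matrix.neg_mul, Matrix.mul_neg, ← Matrix.transpose_mul, ← Matrix.transpose_mul,
      ← Matrix.transpose_neg, ← Matrix.transpose_neg, ← Matrix.transpose_add]
    congr 1
    have a1 : K.e * h * (K.e * K.d) = -(h * K.d) := by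
      rw [heh, Matrix.neg_mul, Matrix.mul_assoc, ← Matrix.mul_assoc K.e K.e, K.e_mul_self,
        Matrix.one_mul]
    have a2 : K.e * K.d * (K.e * h) = -(K.d * h) := by
      rw [K.e_mul_d, Matrix.neg_mul, Matrix.mul_assoc, ← Matrix.mul_assoc K.e K.e, K.e_mul_self,
        Matrix.one_mul]
    rw [a1, a2, neg_neg, neg_neg, add_comm]
  rw [h1]
  have h2 := hh.sup.transpose
  rw [Matrix.transpose_sub, Matrix.transpose_smul, Matrix.transpose_one] at h2
  exact h2

theorem Con.dual {c : R} (hK : Con K c) : Con K.dual c := by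
  obtain ⟨h, hh⟩ := hK
  exact ⟨_, hh.dual⟩

theorem Con.hom {c c' : R} (hK : Con K c) (hL : Con L c') : Con (Hom K L) (c' * c) :=
  hL.tensor hK.dual

theorem UE.tensor {a : R} (hK : UE K a) (hL : UE L a) : UE (K.tensor L) a := by
  obtain ⟨N, hK⟩ := hK
  obtain ⟨N', hL⟩ := hL
  exact ⟨N + N', by rw [pow_add]; exact hK.tensor hL⟩

theorem UE.dual {a : R} (hK : UE K a) : UE K.dual a := by
  obtain ⟨N, hK⟩ := hK
  exact ⟨N, hK.dual⟩

theorem UE.hom {a : R} (hK : UE K a) (hL : UE L a) : UE (Hom K L) a := hL.tensor hK.dual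

theorem smul_one_sum (c : R) : c • (1 : Matrix (J ⊕ J') (J ⊕ J') R) =
    Matrix.fromBlocks (c • (1 : Matrix J J R)) 0 0 (c • (1 : Matrix J' J' R)) := by
  rw [← Matrix.fromBlocks_one, Matrix.fromBlocks_smul, smul_zero, smul_zero]

theorem fromBlocks_sub' {A A' B B' : Type*} (a a' : Matrix A A' R) (b b' : Matrix A B' R)
    (c c' : Matrix B A' R) (d d' : Matrix B B' R) :
    Matrix.fromBlocks a b c d - Matrix.fromBlocks a' b' c' d' =
      Matrix.fromBlocks (a - a') (b - b') (c - c') (d - d') := by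
  ext (i | i) (j | j) <;> simp

theorem Con.ext {c : R} (hK : Con K c) (hL : Con L c) {θ : Matrix J J' R} (hθ : Cl L K 1 θ) :
    Con (Cx.ext hθ) (c * c) := by
  obtain ⟨hk, hhk⟩ := hK
  obtain ⟨hl, hhl⟩ := hL
  have hh : IsHmg (Cx.ext hθ) (Cx.ext hθ) (-1) (Matrix.fromBlocks hk 0 0 hl) :=
    Hmg.fromBlocks hhk.hmg Hmg.zero Hmg.zero hhl.hmg
  refine Con.comp hh hh ?_
  have e1 : c • (1 : Matrix (J ⊕ J') (J ⊕ J') R) - ((Cx.ext hθ).d * Matrix.fromBlocks hk 0 0 hl +
      Matrix.fromBlocks hk 0 0 hl * (Cx.ext hθ).d) =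
      Matrix.fromBlocks (K.pr c hk) (-(θ * hl + hk * θ)) 0 (L.pr c hl) := by
    rw [ext_d, smul_one_sum, Matrix.fromBlocks_multiply, Matrix.fromBlocks_multiply,
      Matrix.fromBlocks_add, fromBlocks_sub']
    simp [pr]
  rw [e1, Matrix.fromBlocks_multiply]
  have hN : IsHmg L K 0 (-(θ * hl + hk * θ)) :=
    ((hθ.hmg.mul' hhl.hmg (by norm_num)).add (hhk.hmg.mul' hθ.hmg (by norm_num))).neg
  refine Sup0.fromBlocks ?_ ?_ ?_ ?_
  · rw [Matrix.mul_zero, add_zero]
    exact Sup0.mul_hmg hhk.sup (Sup0.hmg hhk.sup)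
  · exact (Sup0.mul_hmg hhk.sup hN).add (Sup0.hmg_mul hN hhl.sup)
  · rw [Matrix.zero_mul, Matrix.mul_zero, add_zero]
    exact Sup0.zero
  · rw [Matrix.zero_mul, zero_add]
    exact Sup0.mul_hmg hhl.sup (Sup0.hmg hhl.sup)

theorem UE.ext {a : R} (hK : UE K a) (hL : UE L a) {θ : Matrix J J' R} (hθ : Cl L K 1 θ) :
    UE (Cx.ext hθ) a := by
  obtain ⟨N, hK⟩ := hK
  obtain ⟨N', hL⟩ := hL
  refine ⟨(N + N') + (N + N'), ?_⟩
  rw [pow_add a (N + N')]
  refine Con.ext ?_ ?_ hθ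
  · rw [add_comm N, pow_add]; exact hK.smul _
  · rw [pow_add]; exact hL.smul _

/-- The cone of `f : X → W` is contractible outside degree `0` if `W` is and if `f` has a left
inverse up to homotopy (and up to scalars). -/
theorem Con.cone {X : Cx R J} {W : Cx R J'} {c c' : R} (hW : Con W c') {f : Matrix J' J R}
    (hf : Cl X W 0 f) {r : Matrix J J' R} {s : Matrix J J R} (hr : Cl W X 0 r)
    (hs : IsHmg X X (-1) s) (hrf : r * f = c • (1 : Matrix J J R) + (X.d * s + s * X.d)) :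
    Con (Cx.cone hf) (c' * c) := by
  obtain ⟨hw, hhw⟩ := hW
  have hh0 : IsHmg (Cx.cone hf) (Cx.cone hf) (-1) (Matrix.fromBlocks hw 0 0 0) :=
    Hmg.fromBlocks hhw.hmg Hmg.zero Hmg.zero Hmg.zero
  have hh1 : IsHmg (Cx.cone hf) (Cx.cone hf) (-1) (Matrix.fromBlocks 0 0 r s) :=
    Hmg.fromBlocks Hmg.zero Hmg.zero
      (fun i j h => hr.hmg i j (by intro h1; apply h; rw [h1]; ring))
      (fun i j h => hs i j (by intro h1; apply h; rw [h1]))
  refine Con.comp hh0 hh1 ?_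
  have e0 : c' • (1 : Matrix (J' ⊕ J) (J' ⊕ J) R) - ((Cx.cone hf).d * Matrix.fromBlocks hw 0 0 0 +
      Matrix.fromBlocks hw 0 0 0 * (Cx.cone hf).d) =
      Matrix.fromBlocks (W.pr c' hw) (-(hw * f)) 0 (c' • 1) := by
    rw [cone_d, smul_one_sum, Matrix.fromBlocks_multiply, Matrix.fromBlocks_multiply,
      Matrix.fromBlocks_add, fromBlocks_sub']
    simp [pr]
  have e1 : c • (1 : Matrix (J' ⊕ J) (J' ⊕ J) R) - ((Cx.cone hf).d * Matrix.fromBlocks 0 0 r s +
      Matrix.fromBlocks 0 0 r s * (Cx.cone hf).d) =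
      Matrix.fromBlocks (c • 1 - f * r) (-(f * s)) 0 0 := by
    rw [cone_d, smul_one_sum, Matrix.fromBlocks_multiply, Matrix.fromBlocks_multiply,
      Matrix.fromBlocks_add, fromBlocks_sub', hrf]
    congr 1
    · simp
    · simp
    · simp only [Matrix.neg_mul, Matrix.zero_mul, zero_add, Matrix.mul_zero, add_zero, zero_sub]
      rw [hr.comm0]; simp
    · simp only [Matrix.neg_mul, Matrix.mul_neg, Matrix.zero_mul, zero_add]
      abel
  rw [e0, e1, Matrix.fromBlocks_multiply]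
  have hfr : IsHmg W W 0 (c • (1 : Matrix J' J' R) - f * r) :=
    (Hmg.smul c Hmg.one).sub (hf.hmg.mul' hr.hmg (by norm_num))
  have hfs : Hmg W.deg (fun j => X.deg j + (-1)) 0 (-(f * s)) :=
    Hmg.neg (fun i j h => (hf.hmg.mul hs) i j (by intro h1; apply h; rw [h1]; ring))
  refine Sup0.fromBlocks ?_ ?_ ?_ ?_
  · rw [Matrix.mul_zero, add_zero]
    exact Sup0.mul_hmg hhw.sup hfr
  · rw [Matrix.mul_zero, add_zero]
    exact Sup0.mul_hmg hhw.sup hfs
  · rw [Matrix.zero_mul, Matrix.mul_zero, add_zero]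
    exact Sup0.zero
  · rw [Matrix.zero_mul, Matrix.mul_zero, add_zero]
    exact Sup0.zero

/-- The fibre of `f : W → X` is contractible outside degree `0` if `W` is and if `f` has a right
inverse up to homotopy (and up to scalars). -/
theorem Con.fib {X : Cx R J} {W : Cx R J'} {c c' : R} (hW : Con W c') {f : Matrix J J' R}
    (hf : Cl W X 0 f) {r : Matrix J' J R} {s : Matrix J J R} (hr : Cl X W 0 r)
    (hs : IsHmg X X (-1) s) (hfr : f * r = c • (1 : Matrix J J R) + (X.d * s + s * X.d)) :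
    Con (Cx.fib hf) (c * c') := by
  obtain ⟨hw, hhw⟩ := hW
  have hh0 : IsHmg (Cx.fib hf) (Cx.fib hf) (-1) (Matrix.fromBlocks hw 0 0 0) :=
    Hmg.fromBlocks hhw.hmg Hmg.zero Hmg.zero Hmg.zero
  have hh1 : IsHmg (Cx.fib hf) (Cx.fib hf) (-1) (Matrix.fromBlocks 0 r 0 s) :=
    Hmg.fromBlocks Hmg.zero
      (fun i j h => hr.hmg i j (by intro h1; apply h; rw [h1]; ring)) Hmg.zero
      (fun i j h => hs i j (by intro h1; apply h; rw [h1]; ring))
  refine Con.comp hh1 hh0 ?_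
  have e0 : c' • (1 : Matrix (J' ⊕ J) (J' ⊕ J) R) - ((Cx.fib hf).d * Matrix.fromBlocks hw 0 0 0 +
      Matrix.fromBlocks hw 0 0 0 * (Cx.fib hf).d) =
      Matrix.fromBlocks (W.pr c' hw) 0 (-(f * hw)) (c' • 1) := by
    rw [fib_d, smul_one_sum, Matrix.fromBlocks_multiply, Matrix.fromBlocks_multiply,
      Matrix.fromBlocks_add, fromBlocks_sub']
    simp [pr]
  have e1 : c • (1 : Matrix (J' ⊕ J) (J' ⊕ J) R) - ((Cx.fib hf).d * Matrix.fromBlocks 0 r 0 s +
      Matrix.fromBlocks 0 r 0 s * (Cx.fib hf).d) =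
      Matrix.fromBlocks (c • 1 - r * f) 0 (-(s * f)) 0 := by
    rw [fib_d, smul_one_sum, Matrix.fromBlocks_multiply, Matrix.fromBlocks_multiply,
      Matrix.fromBlocks_add, fromBlocks_sub', hfr]
    congr 1
    · simp
    · simp only [Matrix.neg_mul, Matrix.mul_neg, Matrix.zero_mul, zero_add, Matrix.mul_zero, add_zero]
      rw [hr.comm0]; simp
    · simp
    · simp only [Matrix.neg_mul, Matrix.mul_neg, Matrix.zero_mul, Matrix.mul_zero, zero_add]
      abel
  rw [e0, e1, Matrix.fromBlocks_multiply]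
  have hrf : IsHmg W W 0 (c • (1 : Matrix J' J' R) - r * f) :=
    (Hmg.smul c Hmg.one).sub (hr.hmg.mul' hf.hmg (by norm_num))
  have hsf : Hmg (fun j => X.deg j + 1) W.deg 0 (-(s * f)) :=
    Hmg.neg (fun i j h => (hs.mul hf.hmg) i j (by intro h1; apply h; rw [h1]; ring))
  refine Sup0.fromBlocks ?_ ?_ ?_ ?_
  · rw [Matrix.zero_mul, add_zero]
    exact Sup0.hmg_mul hrf hhw.sup
  · rw [Matrix.zero_mul, Matrix.mul_zero, add_zero]
    exact Sup0.zero
  · rw [Matrix.zero_mul, add_zero]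
    exact Sup0.hmg_mul hsf hhw.sup
  · rw [Matrix.zero_mul, Matrix.mul_zero, add_zero]
    exact Sup0.zero

theorem UE.cone {X : Cx R J} {W : Cx R J'} {a : R} (hW : UE W a) {f : Matrix J' J R}
    (hf : Cl X W 0 f)
    (hr : ∃ (N : ℕ) (r : Matrix J J' R), Cl W X 0 r ∧ Bd X X 0 (r * f - a ^ N • (1 : Matrix J J R))) :
    UE (Cx.cone hf) a := by
  obtain ⟨N, hW⟩ := hW
  obtain ⟨N', r, hr, s, hs, hrf⟩ := hr
  refine ⟨N + N', ?_⟩
  rw [pow_add]
  refine Con.cone hW hf hr (s := s) (hs.cast (by norm_num)) ?_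
  rw [sg_zero] at hrf
  rw [← sub_eq_iff_eq_add', hrf]; simp

theorem UE.fib {X : Cx R J} {W : Cx R J'} {a : R} (hW : UE W a) {f : Matrix J J' R}
    (hf : Cl W X 0 f)
    (hr : ∃ (N : ℕ) (r : Matrix J' J R), Cl X W 0 r ∧ Bd X X 0 (f * r - a ^ N • (1 : Matrix J J R))) :
    UE (Cx.fib hf) a := by
  obtain ⟨N, hW⟩ := hW
  obtain ⟨N', r, hr, s, hs, hrf⟩ := hr
  refine ⟨N' + N, ?_⟩
  rw [pow_add]
  refine Con.fib hW hf hr (s := s) (hs.cast (by norm_num)) ?_
  rw [sg_zero] at hrf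
  rw [← sub_eq_iff_eq_add', hrf]; simp

/-- base change -/
theorem Con.map {S : Type*} [CommRing S] (φ : R →+* S) {c : R} (hK : Con K c) :
    Con (K.map φ) (φ c) := by
  obtain ⟨h, hh⟩ := hK
  refine ⟨h.map φ, Hmg.map φ hh.hmg, ?_⟩
  intro i j hij
  have h1 := hh.sup i j hij
  have h2 : (φ c • (1 : Matrix J J S) - ((K.map φ).d * h.map φ + h.map φ * (K.map φ).d)) =
      (c • (1 : Matrix J J R) - (K.d * h + h * K.d)).map φ := by
    rw [map_sub', map_add', map_smul', one_map, map_d, Matrix.map_mul, Matrix.map_mul]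
  rw [h2, Matrix.map_apply, h1, map_zero]

theorem UE.map {S : Type*} [CommRing S] (φ : R →+* S) {a : R} (hK : UE K a) :
    UE (K.map φ) (φ a) := by
  obtain ⟨N, hK⟩ := hK
  exact ⟨N, by rw [← map_pow]; exact hK.map φ⟩

/-- a complex concentrated in degree `0` -/
theorem UE.free (a : R) : UE (Cx.free R J 0) a := by
  refine ⟨0, 0, Hmg.zero, ?_⟩
  intro i j hij
  exact absurd ⟨rfl, rfl⟩ hij

end Cx

end LicciCx
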